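import Mathlib

/-!
# Clique-sums along trees of bounded Horton-Strahler number
-/

namespace KSum52

/-- A family of finite graphs. -/
abbrev Family : Type := (n : ℕ) → SimpleGraph (Fin n) → Prop

/-- Every graph of the family `F`, with arbitrary positive edge weights, embeds into `ℓ₁` with
distortion at most `D`: there is a map `f` to `ℓ₁` which is `D`-Lipschitz on the edges and such that
`‖f u - f v‖₁` is at least the weighted length of some walk from `u` to `v`, for all `u`, `v`
in the same component. -/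
def Embeds (F : Family) (D : ℝ) : Prop :=
  ∀ (n : ℕ) (G : SimpleGraph (Fin n)), F n G →
    ∀ w : Sym2 (Fin n) → ℝ, (∀ e ∈ G.edgeSet, 0 < w e) →
      ∃ m : ℕ, ∃ f : Fin n → Fin m → ℝ,
        (∀ u v : Fin n, G.Adj u v → ∑ i, |f u i - f v i| ≤ D * w s(u, v)) ∧
        (∀ u v : Fin n, G.Reachable u v →
          ∃ p : G.Walk u v, (p.edges.map w).sum ≤ ∑ i, |f u i - f v i|)

/-- The graph `G₁.map φ₁ ⊔ G₂.map φ₂` on `Fin N` is the sum of `G₁` and `G₂` along a clique with
at most `k` vertices: the images of the two vertex sets cover `Fin N`, and they meet in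
at most `k` vertices, which form a clique in both graphs. -/
structure IsSum (k : ℕ) {a b N : ℕ} (G₁ : SimpleGraph (Fin a)) (G₂ : SimpleGraph (Fin b))
    (φ₁ : Fin a ↪ Fin N) (φ₂ : Fin b ↪ Fin N) : Prop where
  cover : ∀ x : Fin N, x ∈ Set.range φ₁ ∨ x ∈ Set.range φ₂
  card : (Set.range φ₁ ∩ Set.range φ₂).ncard ≤ k
  clique : ∀ x ∈ Set.range φ₁ ∩ Set.range φ₂, ∀ y ∈ Set.range φ₁ ∩ Set.range φ₂, x ≠ y →
    (G₁.map φ₁).Adj x y ∧ (G₂.map φ₂).Adj x y

/-- `TreeSum k F r n G E`: the graph `G` is obtained from members of `F` by sums along cliques with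
at most `k` vertices, following a rooted tree of members of `F` whose Horton-Strahler
number is `r`; `E` is the vertex set of the root piece.  A single member of `F` has number `0`.
When the root piece of a graph with number `t` is glued to the root piece of a graph with number
`s` (and becomes a child of the latter), the result has number `max s t` if `s ≠ t`, and `s + 1` if
`s = t`. -/
inductive TreeSum (k : ℕ) (F : Family) : ℕ → (n : ℕ) → SimpleGraph (Fin n) → Set (Fin n) → Prop
  | piece {n : ℕ} {G : SimpleGraph (Fin n)} (h : F n G) : TreeSum k F 0 n G Set.univ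
  | glue {s t a b N : ℕ} {G₁ : SimpleGraph (Fin a)} {G₂ : SimpleGraph (Fin b)}
      {E₁ : Set (Fin a)} {E₂ : Set (Fin b)} (φ₁ : Fin a ↪ Fin N) (φ₂ : Fin b ↪ Fin N)
      (h₁ : TreeSum k F s a G₁ E₁) (h₂ : TreeSum k F t b G₂ E₂) (h : IsSum k G₁ G₂ φ₁ φ₂)
      (hE₁ : Set.range φ₁ ∩ Set.range φ₂ ⊆ φ₁ '' E₁) (hE₂ : Set.range φ₁ ∩ Set.range φ₂ ⊆ φ₂ '' E₂) :
      TreeSum k F (if s = t then s + 1 else max s t) N (G₁.map φ₁ ⊔ G₂.map φ₂) (φ₁ '' E₁)

/-- the family of all graphs obtained from members of `F` by clique-sums along rooted trees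
of Horton-Strahler number at most `r` -/
def TreeSums (k : ℕ) (F : Family) (r : ℕ) : Family :=
  fun n G => ∃ s ≤ r, ∃ E : Set (Fin n), TreeSum k F s n G E

/-- the closure of a family under arbitrary sums along at most one vertex -/
inductive OneSums (F : Family) : (n : ℕ) → SimpleGraph (Fin n) → Prop
  | piece {n : ℕ} {G : SimpleGraph (Fin n)} (h : F n G) : OneSums F n G
  | glue {a b N : ℕ} {G₁ : SimpleGraph (Fin a)} {G₂ : SimpleGraph (Fin b)}
      (φ₁ : Fin a ↪ Fin N) (φ₂ : Fin b ↪ Fin N) (h₁ : OneSums F a G₁) (h₂ : OneSums F b G₂)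
      (h : IsSum 1 G₁ G₂ φ₁ φ₂) : OneSums F N (G₁.map φ₁ ⊔ G₂.map φ₂)

/-- all the graphs obtained from graphs of the family by deleting edges -/
def Sub (F : Family) : Family := fun n G => ∃ G' : SimpleGraph (Fin n), F n G' ∧ G ≤ G'

end KSum52
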