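import Mathlib
import Pool.Agent.Lib.MP_2eab14_co.helper52.Defs

section
set_option linter.all false

/-!
# `ℓ₁` semimetrics on a finite set, cut families, truncation
-/

noncomputable section

namespace KSum52

open Finset

universe u

variable {V : Type u}

/-- `δ` is the semimetric of a map to `ℓ₁` -/
def IsL1 (δ : V → V → ℝ) : Prop :=
  ∃ m : ℕ, ∃ f : V → Fin m → ℝ, ∀ x y, δ x y = ∑ i, |f x i - f y i|

lemma IsL1.of_eq {δ δ' : V → V → ℝ} (h : IsL1 δ) (e : ∀ x y, δ' x y = δ x y) : IsL1 δ' := by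
  obtain ⟨m, f, hf⟩ := h
  exact ⟨m, f, fun x y => (e x y).trans (hf x y)⟩

lemma IsL1.of_fintype {ι : Type*} [Fintype ι] {δ : V → V → ℝ} (f : V → ι → ℝ)
    (h : ∀ x y, δ x y = ∑ i, |f x i - f y i|) : IsL1 δ := by
  classical
  refine ⟨Fintype.card ι, fun x i => f x ((Fintype.equivFin ι).symm i), fun x y => ?_⟩
  rw [h]
  exact (Equiv.sum_comp (Fintype.equivFin ι).symm (fun i => |f x i - f y i|)).symm

lemma IsL1.zero : IsL1 (fun _ _ : V => (0 : ℝ)) := ⟨0, fun _ _ => 0, fun x y => by simp⟩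

lemma IsL1.abs (g : V → ℝ) : IsL1 (fun x y => |g x - g y|) :=
  ⟨1, fun x _ => g x, fun x y => by simp⟩

lemma IsL1.add {δ δ' : V → V → ℝ} (h : IsL1 δ) (h' : IsL1 δ') : IsL1 (fun x y => δ x y + δ' x y) := by
  obtain ⟨m, f, hf⟩ := h
  obtain ⟨m', f', hf'⟩ := h'
  refine IsL1.of_fintype (ι := Fin m ⊕ Fin m') (fun x => Sum.elim (f x) (f' x)) (fun x y => ?_)
  rw [Fintype.sum_sum_type, hf, hf']
  simp

lemma IsL1.smul {δ : V → V → ℝ} (h : IsL1 δ) {c : ℝ} (hc : 0 ≤ c) : IsL1 (fun x y => c * δ x y) := by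
  obtain ⟨m, f, hf⟩ := h
  refine ⟨m, fun x i => c * f x i, fun x y => ?_⟩
  simp only [hf, Finset.mul_sum]
  refine Finset.sum_congr rfl (fun i _ => ?_)
  rw [← mul_sub, abs_mul, abs_of_nonneg hc]

lemma IsL1.sum {ι : Type*} (s : Finset ι) {δ : ι → V → V → ℝ} (h : ∀ i ∈ s, IsL1 (δ i)) :
    IsL1 (fun x y => ∑ i ∈ s, δ i x y) := by
  classical
  induction s using Finset.induction_on with
  | empty => simpa using IsL1.zero
  | insert i s hi ih =>
    have h2 := (h i (Finset.mem_insert_self i s)).add (ih (fun j hj => h j (Finset.mem_insert_of_mem hj)))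
    exact h2.of_eq (fun x y => Finset.sum_insert hi)

lemma IsL1.comp {W : Type*} {δ : V → V → ℝ} (h : IsL1 δ) (π : W → V) :
    IsL1 (fun x y : W => δ (π x) (π y)) := by
  obtain ⟨m, f, hf⟩ := h
  exact ⟨m, fun x => f (π x), fun x y => hf _ _⟩

lemma IsL1.nonneg {δ : V → V → ℝ} (h : IsL1 δ) (x y : V) : 0 ≤ δ x y := by
  obtain ⟨m, f, hf⟩ := h
  rw [hf]
  exact Finset.sum_nonneg (fun i _ => abs_nonneg _)

lemma IsL1.self {δ : V → V → ℝ} (h : IsL1 δ) (x : V) : δ x x = 0 := by
  obtain ⟨m, f, hf⟩ := h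
  rw [hf]; simp

lemma IsL1.comm {δ : V → V → ℝ} (h : IsL1 δ) (x y : V) : δ x y = δ y x := by
  obtain ⟨m, f, hf⟩ := h
  rw [hf, hf]
  exact Finset.sum_congr rfl (fun i _ => abs_sub_comm _ _)

lemma IsL1.tri {δ : V → V → ℝ} (h : IsL1 δ) (x y z : V) : δ x z ≤ δ x y + δ y z := by
  obtain ⟨m, f, hf⟩ := h
  rw [hf, hf, hf, ← Finset.sum_add_distrib]
  exact Finset.sum_le_sum (fun i _ => abs_sub_le _ _ _)

/-- restriction to a set: outside `S` everything is sent to one point -/
lemma IsL1.restrict {δ : V → V → ℝ} (h : IsL1 δ) (S : Set V) : ∃ δ' : V → V → ℝ, IsL1 δ' ∧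
    (∀ x ∈ S, ∀ y ∈ S, δ' x y = δ x y) ∧ (∀ x ∉ S, ∀ y ∉ S, δ' x y = 0) := by
  classical
  obtain ⟨m, f, hf⟩ := h
  refine ⟨fun x y => ∑ i, |(if x ∈ S then f x i else 0) - (if y ∈ S then f y i else 0)|,
    ⟨m, fun x i => if x ∈ S then f x i else 0, fun x y => rfl⟩, ?_, ?_⟩
  · intro x hx y hy
    rw [hf]
    simp only [if_pos hx, if_pos hy]
  · intro x hx y hy
    simp [hx, hy]

/-! ## Cut families -/

/-- the semimetric of a weighted family of cuts -/
def cd (L : List (ℝ × (V → Bool))) (x y : V) : ℝ :=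
  (L.map (fun c => if c.2 x = c.2 y then 0 else c.1)).sum

/-- total weight -/
def tot (L : List (ℝ × (V → Bool))) : ℝ := (L.map Prod.fst).sum

/-- all weights are nonnegative -/
def Nn (L : List (ℝ × (V → Bool))) : Prop := ∀ c ∈ L, 0 ≤ c.1

@[simp] lemma cd_nil (x y : V) : cd ([] : List (ℝ × (V → Bool))) x y = 0 := rfl

@[simp] lemma cd_cons (c : ℝ × (V → Bool)) (L : List (ℝ × (V → Bool))) (x y : V) :
    cd (c :: L) x y = (if c.2 x = c.2 y then 0 else c.1) + cd L x y := by
  simp [cd]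

lemma cd_append (L L' : List (ℝ × (V → Bool))) (x y : V) :
    cd (L ++ L') x y = cd L x y + cd L' x y := by
  simp [cd]

@[simp] lemma tot_nil : tot ([] : List (ℝ × (V → Bool))) = 0 := rfl

@[simp] lemma tot_cons (c : ℝ × (V → Bool)) (L : List (ℝ × (V → Bool))) :
    tot (c :: L) = c.1 + tot L := by
  simp [tot]

lemma tot_append (L L' : List (ℝ × (V → Bool))) : tot (L ++ L') = tot L + tot L' := by
  simp [tot]

lemma cd_nonneg {L : List (ℝ × (V → Bool))} (h : Nn L) (x y : V) : 0 ≤ cd L x y := by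
  induction L with
  | nil => simp
  | cons c L ih =>
    rw [cd_cons]
    have h1 : 0 ≤ c.1 := h c (by simp)
    have h2 := ih (fun c' hc' => h c' (by simp [hc']))
    split_ifs <;> linarith

/-- one step of the parity construction -/
def par (p : ℝ) (C : V → Bool) (L : List (ℝ × (V → Bool))) : List (ℝ × (V → Bool)) :=
  L.map (fun c => ((1 - p) * c.1, c.2)) ++ L.map (fun c => (p * c.1, fun x => xor (c.2 x) (C x)))

lemma tot_par (p : ℝ) (C : V → Bool) (L : List (ℝ × (V → Bool))) : tot (par p C L) = tot L := by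
  unfold par
  rw [tot_append]
  induction L with
  | nil => simp
  | cons c L ih =>
    simp only [List.map_cons, tot_cons]
    rw [← ih]
    ring

lemma Nn_par {p : ℝ} (h0 : 0 ≤ p) (h1 : p ≤ 1) (C : V → Bool) {L : List (ℝ × (V → Bool))}
    (h : Nn L) : Nn (par p C L) := by
  intro c hc
  unfold par at hc
  rw [List.mem_append, List.mem_map, List.mem_map] at hc
  rcases hc with ⟨c', h', rfl⟩ | ⟨c', h', rfl⟩
  · exact mul_nonneg (by linarith) (h c' h')
  · exact mul_nonneg h0 (h c' h')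

lemma cd_par (p : ℝ) (C : V → Bool) (L : List (ℝ × (V → Bool))) (x y : V) :
    cd (par p C L) x y = if C x = C y then cd L x y else
      (1 - p) * cd L x y + p * (tot L - cd L x y) := by
  unfold par
  rw [cd_append]
  induction L with
  | nil => simp
  | cons c L ih =>
    simp only [List.map_cons, cd_cons, tot_cons]
    rcases hx : c.2 x <;> rcases hy : c.2 y <;> rcases hCx : C x <;> rcases hCy : C y <;>
      simp [hx, hy, hCx, hCy] at ih ⊢ <;> linarith

/-- the parity construction -/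
def trunc (τ : ℝ) : List (ℝ × (V → Bool)) → List (ℝ × (V → Bool))
  | [] => [(τ, fun _ => true)]
  | c :: L => par ((1 - Real.exp (-(2 * c.1 / τ))) / 2) c.2 (trunc τ L)

lemma tot_trunc (τ : ℝ) (L : List (ℝ × (V → Bool))) : tot (trunc τ L) = τ := by
  induction L with
  | nil => simp [trunc]
  | cons c L ih => rw [trunc, tot_par, ih]

lemma Nn_trunc {τ : ℝ} (hτ : 0 < τ) {L : List (ℝ × (V → Bool))} (h : Nn L) : Nn (trunc τ L) := by
  induction L with
  | nil =>
    intro c hc
    simp [trunc] at hc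
    rw [hc]
    exact hτ.le
  | cons c L ih =>
    rw [trunc]
    have h0 : 0 ≤ 2 * c.1 / τ := div_nonneg (mul_nonneg zero_le_two (h c (by simp))) hτ.le
    have h1 : Real.exp (-(2 * c.1 / τ)) ≤ 1 := by
      rw [Real.exp_le_one_iff]; linarith
    have h2 := Real.exp_pos (-(2 * c.1 / τ))
    exact Nn_par (by linarith) (by linarith) _ (ih (fun c' hc' => h c' (by simp [hc'])))

lemma cd_trunc {τ : ℝ} (hτ : 0 < τ) (L : List (ℝ × (V → Bool))) (x y : V) :
    τ - 2 * cd (trunc τ L) x y = τ * Real.exp (-(2 * cd L x y / τ)) := by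
  induction L with
  | nil => simp [trunc]
  | cons c L ih =>
    rw [trunc, cd_par, cd_cons, tot_trunc]
    by_cases h : c.2 x = c.2 y
    · rw [if_pos h, if_pos h, zero_add, ih]
    · rw [if_neg h, if_neg h]
      have e : -(2 * (c.1 + cd L x y) / τ) = -(2 * c.1 / τ) + -(2 * cd L x y / τ) := by ring
      rw [e, Real.exp_add]
      linear_combination (Real.exp (-(2 * c.1 / τ))) * ih

lemma cd_trunc_le {τ : ℝ} (hτ : 0 < τ) (L : List (ℝ × (V → Bool))) (x y : V) :
    cd (trunc τ L) x y ≤ cd L x y := by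
  have h := cd_trunc hτ L x y
  have h2 := Real.add_one_le_exp (-(2 * cd L x y / τ))
  have h3 : τ * (-(2 * cd L x y / τ) + 1) ≤ τ * Real.exp (-(2 * cd L x y / τ)) :=
    mul_le_mul_of_nonneg_left h2 hτ.le
  have h4 : τ * (-(2 * cd L x y / τ) + 1) = τ - 2 * cd L x y := by
    field_simp
    ring
  linarith

lemma le_cd_trunc {τ : ℝ} (hτ : 0 < τ) {L : List (ℝ × (V → Bool))} (hL : Nn L) (x y : V)
    (hs : cd (trunc τ L) x y ≤ τ / 4) : cd L x y ≤ 2 * cd (trunc τ L) x y := by
  have h := cd_trunc hτ L x y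
  set t : ℝ := 2 * cd L x y / τ with ht
  have ht0 : 0 ≤ t := div_nonneg (mul_nonneg zero_le_two (cd_nonneg hL x y)) hτ.le
  have hc : cd L x y = τ * t / 2 := by
    rw [ht]; field_simp
  have h1 : 1 / 2 ≤ Real.exp (-t) := by
    have : τ * (1 / 2) ≤ τ * Real.exp (-t) := by rw [← h]; linarith
    exact le_of_mul_le_mul_left this hτ
  have ht1 : t ≤ 1 := by
    by_contra hcon
    rw [not_le] at hcon
    have h2 : Real.exp (-t) ≤ Real.exp (-1) := Real.exp_le_exp.2 (by linarith)
    have h3 : Real.exp (-1) < 1 / 2 := by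
      rw [Real.exp_neg, inv_lt_comm₀ (Real.exp_pos 1) (by norm_num)]
      have := Real.exp_one_gt_d9
      norm_num at this ⊢
      linarith
    linarith
  have h5 : Real.exp (-t) ≤ 1 - t / 2 := by
    have h6 : 1 + t + t ^ 2 / 2 ≤ Real.exp t := Real.quadratic_le_exp_of_nonneg ht0
    have h7 : Real.exp (-t) * Real.exp t = 1 := by rw [← Real.exp_add]; simp
    have h8 : 0 < Real.exp (-t) := Real.exp_pos _
    have h9 : 1 ≤ (1 - t / 2) * (1 + t + t ^ 2 / 2) := by nlinarith [mul_nonneg ht0 ht0, mul_nonneg (mul_nonneg ht0 ht0) ht0]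
    have h10 : Real.exp (-t) * (1 + t + t ^ 2 / 2) ≤ (1 - t / 2) * (1 + t + t ^ 2 / 2) := by
      have : Real.exp (-t) * (1 + t + t ^ 2 / 2) ≤ Real.exp (-t) * Real.exp t :=
        mul_le_mul_of_nonneg_left h6 h8.le
      linarith
    exact le_of_mul_le_mul_right h10 (by positivity)
  have h11 : τ * Real.exp (-t) ≤ τ * (1 - t / 2) := mul_le_mul_of_nonneg_left h5 hτ.le
  rw [hc]
  linarith

/-- a scaled cut family is an `ℓ₁` semimetric -/
lemma IsL1.list (ψ : V → ℝ) (L : List (ℝ × (V → Bool))) :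
    IsL1 (fun x y => (L.map (fun c => |(if c.2 x then ψ x * c.1 else 0) -
      (if c.2 y then ψ y * c.1 else 0)|)).sum) := by
  induction L with
  | nil => simpa using IsL1.zero
  | cons c L ih =>
    have := (IsL1.abs (fun x => if c.2 x then ψ x * c.1 else 0)).add ih
    exact this.of_eq (fun x y => by rw [List.map_cons, List.sum_cons])

lemma list_upper {ψ : V → ℝ} {L : List (ℝ × (V → Bool))} (hL : Nn L) {x y : V} (hx : 0 ≤ ψ x)
    (hy : 0 ≤ ψ y) (hx1 : ψ x ≤ 1) (hy1 : ψ y ≤ 1) :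
    (L.map (fun c => |(if c.2 x then ψ x * c.1 else 0) - (if c.2 y then ψ y * c.1 else 0)|)).sum ≤
      |ψ x - ψ y| * tot L + cd L x y := by
  induction L with
  | nil => simp
  | cons c L ih =>
    have h1 : 0 ≤ c.1 := hL c (by simp)
    have h2 := ih (fun c' hc' => hL c' (by simp [hc']))
    rw [List.map_cons, List.sum_cons, tot_cons, cd_cons]
    have h3 : |(if c.2 x then ψ x * c.1 else 0) - (if c.2 y then ψ y * c.1 else 0)| ≤
        |ψ x - ψ y| * c.1 + (if c.2 x = c.2 y then 0 else c.1) := by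
      have h4 : 0 ≤ |ψ x - ψ y| * c.1 := mul_nonneg (abs_nonneg _) h1
      have h5 : ψ x * c.1 ≤ c.1 := by nlinarith
      have h6 : ψ y * c.1 ≤ c.1 := by nlinarith
      have h7 : 0 ≤ ψ x * c.1 := mul_nonneg hx h1
      have h8 : 0 ≤ ψ y * c.1 := mul_nonneg hy h1
      rcases hcx : c.2 x <;> rcases hcy : c.2 y
      · simp [h4]
      · simp only [Bool.false_eq_true, if_false, if_true, zero_sub, abs_neg]
        rw [abs_of_nonneg h8]
        linarith
      · simp only [Bool.true_eq_false, Bool.false_eq_true, if_false, if_true, sub_zero]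
        rw [abs_of_nonneg h7]
        linarith
      · simp only [if_true, add_zero]
        rw [← sub_mul, abs_mul, abs_of_nonneg h1]
    linarith

lemma list_lower {ψ : V → ℝ} {L : List (ℝ × (V → Bool))} (hL : Nn L) {x y : V} {κ : ℝ}
    (hx : κ ≤ ψ x) (hy : κ ≤ ψ y) (hκ : 0 ≤ κ) :
    κ * cd L x y ≤
    (L.map (fun c => |(if c.2 x then ψ x * c.1 else 0) - (if c.2 y then ψ y * c.1 else 0)|)).sum := by
  induction L with
  | nil => simp
  | cons c L ih =>
    have h1 : 0 ≤ c.1 := hL c (by simp)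
    have h2 := ih (fun c' hc' => hL c' (by simp [hc']))
    rw [List.map_cons, List.sum_cons, cd_cons, mul_add]
    have h3 : κ * (if c.2 x = c.2 y then 0 else c.1) ≤
        |(if c.2 x then ψ x * c.1 else 0) - (if c.2 y then ψ y * c.1 else 0)| := by
      have h5 : κ * c.1 ≤ ψ x * c.1 := mul_le_mul_of_nonneg_right hx h1
      have h6 : κ * c.1 ≤ ψ y * c.1 := mul_le_mul_of_nonneg_right hy h1
      rcases hcx : c.2 x <;> rcases hcy : c.2 y
      · simp
      · simp only [Bool.false_eq_true, if_false, if_true, zero_sub, abs_neg]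
        exact h6.trans (le_abs_self _)
      · simp only [Bool.true_eq_false, Bool.false_eq_true, if_false, if_true, sub_zero]
        exact h5.trans (le_abs_self _)
      · simp
    linarith

/-! ## Every `ℓ₁` semimetric comes from a cut family -/

lemma exists_cuts_aux (g : V → ℝ) (T : Finset ℝ) : ∃ L : List (ℝ × (V → Bool)), Nn L ∧
    ∀ M ∈ T, (∀ t ∈ T, t ≤ M) → ∀ x y, (g x ∈ T ∨ M ≤ g x) → (g y ∈ T ∨ M ≤ g y) →
      cd L x y = |min (g x) M - min (g y) M| := by
  classical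
  induction T using Finset.induction_on_max with
  | empty => exact ⟨[], by intro c hc; simp at hc, by intro M hM; simp at hM⟩
  | insert v T hv ih =>
    obtain ⟨L, hL, h⟩ := ih
    by_cases hT : T.Nonempty
    · set M := T.max' hT with hM
      have hMT : M ∈ T := T.max'_mem hT
      have hMle : ∀ t ∈ T, t ≤ M := fun t ht => T.le_max' t ht
      have hMv : M < v := hv M hMT
      refine ⟨(v - M, fun x => decide (v ≤ g x)) :: L, ?_, ?_⟩
      · intro c hc
        rcases List.mem_cons.1 hc with rfl | hc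
        · exact sub_nonneg.2 hMv.le
        · exact hL c hc
      · intro M' hM' hle x y hx hy
        have hM'v : M' = v := by
          rcases Finset.mem_insert.1 hM' with h1 | h1
          · exact h1
          · exact absurd (hle v (Finset.mem_insert_self _ _)) (not_le.2 (hv M' h1))
        subst hM'v
        have key : ∀ z, (g z ∈ insert M' T ∨ M' ≤ g z) → (g z ∈ T ∧ g z ≤ M) ∨ M' ≤ g z := by
          intro z hz
          rcases hz with hz | hz
          · rcases Finset.mem_insert.1 hz with h1 | h1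
            · exact Or.inr h1.ge
            · exact Or.inl ⟨h1, hMle _ h1⟩
          · exact Or.inr hz
        rw [cd_cons]
        simp only [decide_eq_decide]
        rcases key x hx with ⟨hx1, hx2⟩ | hx1 <;> rcases key y hy with ⟨hy1, hy2⟩ | hy1
        · rw [if_pos (by constructor <;> intro h1 <;> linarith), h M hMT hMle x y (Or.inl hx1)
            (Or.inl hy1), min_eq_left hx2, min_eq_left hy2, min_eq_left (by linarith),
            min_eq_left (by linarith), zero_add]
        · rw [if_neg (by intro h1; have := h1.2 hy1; linarith), h M hMT hMle x y (Or.inl hx1)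
            (Or.inr (by linarith)), min_eq_left hx2, min_eq_right (by linarith),
            min_eq_left (by linarith), min_eq_right hy1, abs_of_nonpos (by linarith),
            abs_of_nonpos (by linarith)]
          ring
        · rw [if_neg (by intro h1; have := h1.1 hx1; linarith), h M hMT hMle x y
            (Or.inr (by linarith)) (Or.inl hy1), min_eq_left hy2, min_eq_right (by linarith),
            min_eq_right hx1, min_eq_left (by linarith), abs_of_nonneg (by linarith),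
            abs_of_nonneg (by linarith)]
          ring
        · rw [if_pos (by constructor <;> intro _ <;> assumption), h M hMT hMle x y
            (Or.inr (by linarith)) (Or.inr (by linarith)), min_eq_right (by linarith),
            min_eq_right (by linarith), min_eq_right hx1, min_eq_right hy1]
          simp
    · rw [Finset.not_nonempty_iff_eq_empty] at hT
      subst hT
      refine ⟨[], by intro c hc; simp at hc, ?_⟩
      intro M' hM' hle x y hx hy
      simp only [insert_empty_eq, Finset.mem_singleton] at hM' hx hy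
      subst hM'
      have hx' : M' ≤ g x := hx.elim (fun h => h.ge) id
      have hy' : M' ≤ g y := hy.elim (fun h => h.ge) id
      rw [min_eq_right hx', min_eq_right hy']
      simp

lemma exists_cuts_real [Fintype V] (g : V → ℝ) : ∃ L : List (ℝ × (V → Bool)), Nn L ∧
    ∀ x y, |g x - g y| = cd L x y := by
  classical
  obtain ⟨L, hL, h⟩ := exists_cuts_aux g (Finset.univ.image g)
  by_cases hV : (Finset.univ.image g).Nonempty
  · refine ⟨L, hL, fun x y => ?_⟩
    have hm : ∀ z, g z ∈ Finset.univ.image g := fun z => Finset.mem_image_of_mem g (Finset.mem_univ z)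
    have := h _ ((Finset.univ.image g).max'_mem hV) (fun t ht => Finset.le_max' _ t ht) x y
      (Or.inl (hm x)) (Or.inl (hm y))
    rw [this, min_eq_left (Finset.le_max' _ _ (hm x)), min_eq_left (Finset.le_max' _ _ (hm y))]
  · refine ⟨[], by intro c hc; simp at hc, fun x y => ?_⟩
    exact absurd ⟨g x, Finset.mem_image_of_mem g (Finset.mem_univ x)⟩ hV

lemma IsL1.exists_cuts [Fintype V] {δ : V → V → ℝ} (h : IsL1 δ) :
    ∃ L : List (ℝ × (V → Bool)), Nn L ∧ ∀ x y, δ x y = cd L x y := by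
  obtain ⟨m, f, hf⟩ := h
  induction m generalizing δ with
  | zero => exact ⟨[], by intro c hc; simp at hc, fun x y => by rw [hf]; simp⟩
  | succ m ih =>
    obtain ⟨L, hL, h1⟩ := ih (δ := fun x y => ∑ i : Fin m, |f x i.succ - f y i.succ|)
      (fun x i => f x i.succ) (fun x y => rfl)
    obtain ⟨L', hL', h2⟩ := exists_cuts_real (fun x => f x 0)
    refine ⟨L' ++ L, ?_, fun x y => ?_⟩
    · intro c hc
      rcases List.mem_append.1 hc with hc | hc
      · exact hL' c hc
      · exact hL c hc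
    · rw [hf, Fin.sum_univ_succ, cd_append, ← h1, ← h2]

end KSum52
end
end

section
set_option linter.all false

/-!
# Weighted distances in a finite graph
-/

noncomputable section

namespace KSum52

open Finset

universe u

variable {V : Type u}

/-- weighted length of a walk -/
def wl (w : Sym2 V → ℝ) {G : SimpleGraph V} {u v : V} (p : G.Walk u v) : ℝ := (p.edges.map w).sum

/-- the weights of the edges are positive -/
def Pos (G : SimpleGraph V) (w : Sym2 V → ℝ) : Prop := ∀ e ∈ G.edgeSet, 0 < w e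

/-- the weighted graph embeds into `ℓ₁` with distortion `D` -/
def Emb (G : SimpleGraph V) (w : Sym2 V → ℝ) (D : ℝ) : Prop :=
  ∃ m : ℕ, ∃ f : V → Fin m → ℝ,
    (∀ u v : V, G.Adj u v → ∑ i, |f u i - f v i| ≤ D * w s(u, v)) ∧
    (∀ u v : V, G.Reachable u v → ∃ p : G.Walk u v, (p.edges.map w).sum ≤ ∑ i, |f u i - f v i|)

section Walks

variable {G : SimpleGraph V} {w : Sym2 V → ℝ}

@[simp] lemma wl_nil (u : V) : wl w (SimpleGraph.Walk.nil : G.Walk u u) = 0 := by simp [wl]

@[simp] lemma wl_cons {u v x : V} (h : G.Adj u v) (p : G.Walk v x) :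
    wl w (SimpleGraph.Walk.cons h p) = w s(u, v) + wl w p := by simp [wl]

lemma wl_append {u v x : V} (p : G.Walk u v) (q : G.Walk v x) :
    wl w (p.append q) = wl w p + wl w q := by simp [wl]

lemma wl_reverse {u v : V} (p : G.Walk u v) : wl w p.reverse = wl w p := by simp [wl]

variable (hw : Pos G w)
include hw

lemma Pos.adj {u v : V} (h : G.Adj u v) : 0 < w s(u, v) := hw _ ((SimpleGraph.mem_edgeSet G).2 h)

lemma wl_nonneg {u v : V} (p : G.Walk u v) : 0 ≤ wl w p := by
  induction p with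
  | nil => simp
  | cons h p ih => rw [wl_cons]; exact add_nonneg (hw.adj h).le ih

omit hw in
lemma sum_sublist {l l' : List (Sym2 V)} (h : l.Sublist l') (h0 : ∀ e ∈ l', 0 ≤ w e) :
    (l.map w).sum ≤ (l'.map w).sum := by
  induction h with
  | slnil => simp
  | cons a h ih =>
    rw [List.map_cons, List.sum_cons]
    have := ih (fun e he => h0 e (by simp [he]))
    have := h0 a (by simp)
    linarith
  | cons_cons a h ih =>
    rw [List.map_cons, List.sum_cons, List.map_cons, List.sum_cons]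
    have := ih (fun e he => h0 e (by simp [he]))
    linarith

lemma wl_bypass [DecidableEq V] {u v : V} (p : G.Walk u v) : wl w p.bypass ≤ wl w p := by
  have h1 : p.bypass.edges.Nodup := p.bypass_isPath.isTrail.edges_nodup
  obtain ⟨l, hl, hs⟩ := h1.subperm (p.edges_bypass_subset)
  unfold wl
  rw [← (hl.map w).sum_eq]
  exact sum_sublist hs (fun e he => (hw e (p.edges_subset_edgeSet he)).le)

/-- a shortest walk -/
lemma exists_min_walk [Fintype V] {u v : V} (h : G.Reachable u v) :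
    ∃ p : G.Walk u v, ∀ q : G.Walk u v, wl w p ≤ wl w q := by
  classical
  obtain ⟨q0⟩ := h
  haveI : Nonempty (G.Path u v) := ⟨q0.toPath⟩
  obtain ⟨p, hp⟩ := Finite.exists_min (fun p : G.Path u v => wl w (p : G.Walk u v))
  exact ⟨p, fun q => (hp q.toPath).trans (wl_bypass hw q)⟩

end Walks

/-- weighted distance -/
def gd (G : SimpleGraph V) (w : Sym2 V → ℝ) (u v : V) : ℝ :=
  sInf (Set.range (fun p : G.Walk u v => wl w p))

section GD

variable {G : SimpleGraph V} {w : Sym2 V → ℝ} (hw : Pos G w)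
include hw

lemma gd_le {u v : V} (p : G.Walk u v) : gd G w u v ≤ wl w p :=
  csInf_le ⟨0, by rintro _ ⟨q, rfl⟩; exact wl_nonneg hw q⟩ ⟨p, rfl⟩

lemma exists_gd [Fintype V] {u v : V} (h : G.Reachable u v) : ∃ p : G.Walk u v, wl w p = gd G w u v := by
  obtain ⟨p, hp⟩ := exists_min_walk hw h
  refine ⟨p, le_antisymm ?_ (gd_le hw p)⟩
  exact le_csInf ⟨_, ⟨p, rfl⟩⟩ (by rintro _ ⟨q, rfl⟩; exact hp q)

lemma gd_nonneg (u v : V) : 0 ≤ gd G w u v :=
  Real.sInf_nonneg (by rintro _ ⟨q, rfl⟩; exact wl_nonneg hw q)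

lemma gd_self (u : V) : gd G w u u = 0 :=
  le_antisymm (by simpa using gd_le hw (SimpleGraph.Walk.nil : G.Walk u u)) (gd_nonneg hw u u)

lemma gd_adj {u v : V} (h : G.Adj u v) : gd G w u v ≤ w s(u, v) := by
  simpa using gd_le hw h.toWalk

variable [Fintype V]

lemma gd_comm (u v : V) : gd G w u v = gd G w v u := by
  by_cases h : G.Reachable u v
  · apply le_antisymm
    · obtain ⟨p, hp⟩ := exists_gd hw h.symm
      rw [← hp, ← wl_reverse]
      exact gd_le hw _
    · obtain ⟨p, hp⟩ := exists_gd hw h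
      rw [← hp, ← wl_reverse]
      exact gd_le hw _
  · have h' : ¬ G.Reachable v u := fun h2 => h h2.symm
    have e : ∀ a b : V, ¬ G.Reachable a b → gd G w a b = 0 := by
      intro a b hab
      unfold gd
      haveI : IsEmpty (G.Walk a b) := ⟨fun p => hab ⟨p⟩⟩
      rw [Set.range_eq_empty, Real.sInf_empty]
    rw [e _ _ h, e _ _ h']

lemma gd_tri {u v x : V} (h : G.Reachable u v) (h' : G.Reachable v x) :
    gd G w u x ≤ gd G w u v + gd G w v x := by
  obtain ⟨p, hp⟩ := exists_gd hw h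
  obtain ⟨q, hq⟩ := exists_gd hw h'
  rw [← hp, ← hq, ← wl_append]
  exact gd_le hw _

/-- `a ↦ d(a, ·)` is 1-Lipschitz -/
lemma gd_lip {a u v : V} (h : G.Reachable a u) (huv : G.Adj u v) :
    |gd G w a u - gd G w a v| ≤ w s(u, v) := by
  have h2 : G.Reachable a v := h.trans huv.reachable
  have h3 := gd_adj hw huv
  have h4 := gd_adj hw huv.symm
  rw [Sym2.eq_swap] at h4
  have h5 := gd_tri hw h huv.reachable
  have h6 := gd_tri hw h2 huv.symm.reachable
  rw [abs_le]
  constructor <;> linarith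

omit [Fintype V] hw in
lemma IsL1.le_wl {δ : V → V → ℝ} (hδ : IsL1 δ) {L : ℝ}
    (h : ∀ u v, G.Adj u v → δ u v ≤ L * w s(u, v)) {u v : V} (p : G.Walk u v) :
    δ u v ≤ L * wl w p := by
  induction p with
  | nil => rw [hδ.self]; simp
  | cons hadj p ih =>
    rw [wl_cons, mul_add]
    exact (hδ.tri _ _ _).trans (add_le_add (h _ _ hadj) ih)

lemma IsL1.le_gd {δ : V → V → ℝ} (hδ : IsL1 δ) {L : ℝ}
    (h : ∀ u v, G.Adj u v → δ u v ≤ L * w s(u, v)) {u v : V} (hr : G.Reachable u v) :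
    δ u v ≤ L * gd G w u v := by
  obtain ⟨p, hp⟩ := exists_gd hw hr
  rw [← hp]
  exact hδ.le_wl h p

lemma emb_iff {D : ℝ} : Emb G w D ↔ ∃ δ : V → V → ℝ, IsL1 δ ∧
    (∀ u v, G.Adj u v → δ u v ≤ D * w s(u, v)) ∧
    (∀ u v, G.Reachable u v → gd G w u v ≤ δ u v) := by
  constructor
  · rintro ⟨m, f, h1, h2⟩
    refine ⟨fun x y => ∑ i, |f x i - f y i|, ⟨m, f, fun _ _ => rfl⟩, h1, fun u v h => ?_⟩
    obtain ⟨p, hp⟩ := h2 u v h
    exact (gd_le hw p).trans hp
  · rintro ⟨δ, ⟨m, f, hf⟩, h1, h2⟩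
    refine ⟨m, f, fun u v h => by rw [← hf]; exact h1 u v h, fun u v h => ?_⟩
    obtain ⟨p, hp⟩ := exists_gd hw h
    refine ⟨p, ?_⟩
    rw [← hf]
    change wl w p ≤ _
    rw [hp]
    exact h2 u v h

/-- a uniform bound for distances -/
lemma gd_bound : ∃ M : ℝ, 0 < M ∧ ∀ u v : V, gd G w u v < M := by
  classical
  refine ⟨1 + ∑ e ∈ (Finset.univ : Finset (V × V)), gd G w e.1 e.2, ?_, fun u v => ?_⟩
  · have := Finset.sum_nonneg (s := (Finset.univ : Finset (V × V)))
      (f := fun e => gd G w e.1 e.2) (fun e _ => gd_nonneg hw _ _)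
    linarith
  · have := Finset.single_le_sum (s := (Finset.univ : Finset (V × V)))
      (f := fun e => gd G w e.1 e.2) (fun e _ => gd_nonneg hw _ _) (Finset.mem_univ (u, v))
    simp only at this
    linarith

end GD

end KSum52
end
end

section
set_option linter.all false

/-!
# The removal lemma
-/

noncomputable section

namespace KSum52

open Finset

universe u

variable {V : Type u}

/-- delete all the edges meeting `A` -/
def rm (G : SimpleGraph V) (A : Set V) : SimpleGraph V where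
  Adj x y := G.Adj x y ∧ x ∉ A ∧ y ∉ A
  symm := ⟨fun x y h => ⟨h.1.symm, h.2.2, h.2.1⟩⟩
  loopless := ⟨fun x h => G.loopless.irrefl x h.1⟩

lemma rm_le (G : SimpleGraph V) (A : Set V) : rm G A ≤ G := fun _ _ h => h.1

lemma Pos.mono {G G' : SimpleGraph V} {w : Sym2 V → ℝ} (hw : Pos G w) (h : G' ≤ G) : Pos G' w :=
  fun e he => hw e (SimpleGraph.edgeSet_mono h he)

lemma gd_mono [Fintype V] {G G' : SimpleGraph V} {w : Sym2 V → ℝ} (hw : Pos G w) (h : G' ≤ G)
    {x y : V} (hr : G'.Reachable x y) : gd G w x y ≤ gd G' w x y := by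
  obtain ⟨p, hp⟩ := exists_gd (hw.mono h) hr
  rw [← hp]
  have := gd_le hw (p.mapLe h)
  unfold wl at this ⊢
  rwa [SimpleGraph.Walk.edges_mapLe_eq_edges] at this

/-- tent function -/
def tent (s : ℝ) : ℝ := max 0 (min 1 (min (2 * s - 1) ((4 - s) / 2)))

lemma tent_nonneg (s : ℝ) : 0 ≤ tent s := le_max_left _ _

lemma tent_le_one (s : ℝ) : tent s ≤ 1 := max_le zero_le_one (min_le_left _ _)

lemma tent_eq_one {s : ℝ} (h1 : 1 ≤ s) (h2 : s ≤ 2) : tent s = 1 := by
  unfold tent
  rw [min_eq_left, max_eq_right zero_le_one]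
  exact le_min (by linarith) (by linarith)

lemma tent_eq_zero {s : ℝ} (h : s ≤ 1 / 2 ∨ 4 ≤ s) : tent s = 0 := by
  unfold tent
  rw [max_eq_left]
  rcases h with h | h
  · exact (min_le_right _ _).trans ((min_le_left _ _).trans (by linarith))
  · exact (min_le_right _ _).trans ((min_le_right _ _).trans (by linarith))

lemma tent_lip (s t : ℝ) : |tent s - tent t| ≤ 2 * |s - t| := by
  unfold tent
  have h1 : |max 0 (min 1 (min (2 * s - 1) ((4 - s) / 2))) -
      max 0 (min 1 (min (2 * t - 1) ((4 - t) / 2)))| ≤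
      max |(0 : ℝ) - 0| |min 1 (min (2 * s - 1) ((4 - s) / 2)) -
        min 1 (min (2 * t - 1) ((4 - t) / 2))| := abs_max_sub_max_le_max _ _ _ _
  have h2 : |min 1 (min (2 * s - 1) ((4 - s) / 2)) - min 1 (min (2 * t - 1) ((4 - t) / 2))| ≤
      max |(1 : ℝ) - 1| |min (2 * s - 1) ((4 - s) / 2) - min (2 * t - 1) ((4 - t) / 2)| :=
    abs_min_sub_min_le_max _ _ _ _
  have h3 : |min (2 * s - 1) ((4 - s) / 2) - min (2 * t - 1) ((4 - t) / 2)| ≤
      max |(2 * s - 1) - (2 * t - 1)| |(4 - s) / 2 - (4 - t) / 2| := abs_min_sub_min_le_max _ _ _ _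
  have h4 : |(2 * s - 1) - (2 * t - 1)| = 2 * |s - t| := by
    rw [show (2 * s - 1) - (2 * t - 1) = 2 * (s - t) by ring, abs_mul]; norm_num
  have h5 : |(4 - s) / 2 - (4 - t) / 2| ≤ 2 * |s - t| := by
    rw [show (4 - s) / 2 - (4 - t) / 2 = -(1 / 2) * (s - t) by ring, abs_mul]
    norm_num
    linarith [abs_nonneg (s - t)]
  have h6 : 0 ≤ 2 * |s - t| := by positivity
  simp only [sub_self, abs_zero] at h1 h2
  exact h1.trans (max_le h6 (h2.trans (max_le h6 (h3.trans (max_le h4.le h5)))))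

/-- the tent function at scale `2 ^ j` -/
def tj (j : ℤ) (t : ℝ) : ℝ := tent (t / (2 : ℝ) ^ j)

lemma two_zpow_pos (j : ℤ) : (0 : ℝ) < (2 : ℝ) ^ j := zpow_pos two_pos j

lemma tj_lip (j : ℤ) (s t : ℝ) : |tj j s - tj j t| * (2 : ℝ) ^ j ≤ 2 * |s - t| := by
  have h := tent_lip (s / (2 : ℝ) ^ j) (t / (2 : ℝ) ^ j)
  have hp := two_zpow_pos j
  have h2 : |s / (2 : ℝ) ^ j - t / (2 : ℝ) ^ j| * (2 : ℝ) ^ j = |s - t| := by
    rw [← sub_div, abs_div, abs_of_pos hp]
    field_simp
  calc |tj j s - tj j t| * (2 : ℝ) ^ j ≤ (2 * |s / (2 : ℝ) ^ j - t / (2 : ℝ) ^ j|) * (2 : ℝ) ^ j :=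
        mul_le_mul_of_nonneg_right h hp.le
    _ = 2 * |s - t| := by rw [mul_assoc, h2]

lemma tj_zero (j : ℤ) : tj j 0 = 0 := by
  unfold tj
  rw [zero_div]
  exact tent_eq_zero (Or.inl (by norm_num))

lemma tj_ne_zero {j : ℤ} {t : ℝ} (ht : 0 < t) (h : tj j t ≠ 0) :
    j ∈ ({Int.log 2 t - 1, Int.log 2 t, Int.log 2 t + 1} : Finset ℤ) := by
  have hp := two_zpow_pos j
  have h1 : ¬ (t / (2 : ℝ) ^ j ≤ 1 / 2 ∨ 4 ≤ t / (2 : ℝ) ^ j) := fun h2 => h (tent_eq_zero h2)
  rw [not_or, not_le, not_le, lt_div_iff₀ hp, div_lt_iff₀ hp] at h1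
  have h2 : ((2 : ℕ) : ℝ) ^ (Int.log 2 t) ≤ t := Int.zpow_log_le_self (by norm_num) ht
  have h3 : t < ((2 : ℕ) : ℝ) ^ (Int.log 2 t + 1) := Int.lt_zpow_succ_log_self (by norm_num) t
  push_cast at h2 h3
  have h4 : (2 : ℝ) ^ (j - 1) < (2 : ℝ) ^ (Int.log 2 t + 1) := by
    rw [zpow_sub_one₀ (by norm_num : (2 : ℝ) ≠ 0)]
    linarith [h1.1]
  have h5 : (2 : ℝ) ^ (Int.log 2 t) < (2 : ℝ) ^ (j + 2) := by
    rw [zpow_add₀ (by norm_num : (2 : ℝ) ≠ 0)]
    norm_num
    linarith [h1.2]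
  rw [zpow_lt_zpow_iff_right₀ (by norm_num)] at h4 h5
  simp only [Finset.mem_insert, Finset.mem_singleton]
  omega

lemma tj_one {t : ℝ} (ht : 0 < t) : tj (Int.log 2 t) t = 1 := by
  have h2 : ((2 : ℕ) : ℝ) ^ (Int.log 2 t) ≤ t := Int.zpow_log_le_self (by norm_num) ht
  have h3 : t < ((2 : ℕ) : ℝ) ^ (Int.log 2 t + 1) := Int.lt_zpow_succ_log_self (by norm_num) t
  push_cast at h2 h3
  have hp := two_zpow_pos (Int.log 2 t)
  rw [zpow_add_one₀ (by norm_num : (2 : ℝ) ≠ 0)] at h3
  apply tent_eq_one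
  · rw [le_div_iff₀ hp]; linarith
  · rw [div_le_iff₀ hp]; linarith

/-- sum over scales -/
lemma sum_scales {J : Finset ℤ} {F : ℤ → ℝ} {B s t : ℝ} (hB : 0 ≤ B) (hs : 0 ≤ s) (ht : 0 ≤ t)
    (h1 : ∀ j ∈ J, F j ≤ B) (h0 : ∀ j ∈ J, tj j s = 0 → tj j t = 0 → F j ≤ 0) :
    ∑ j ∈ J, F j ≤ 6 * B := by
  classical
  let S : Finset ℤ := {Int.log 2 s - 1, Int.log 2 s, Int.log 2 s + 1} ∪
    {Int.log 2 t - 1, Int.log 2 t, Int.log 2 t + 1}
  have hS : S.card ≤ 6 := by
    refine (Finset.card_union_le _ _).trans ?_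
    have : ∀ a b c : ℤ, ({a, b, c} : Finset ℤ).card ≤ 3 := fun a b c => Finset.card_le_three
    have h1 := this (Int.log 2 s - 1) (Int.log 2 s) (Int.log 2 s + 1)
    have h2 := this (Int.log 2 t - 1) (Int.log 2 t) (Int.log 2 t + 1)
    omega
  have hle : ∀ j ∈ J, F j ≤ if j ∈ S then B else 0 := by
    intro j hj
    by_cases hjS : j ∈ S
    · rw [if_pos hjS]; exact h1 j hj
    · rw [if_neg hjS]
      apply h0 j hj
      · by_contra hne
        rcases hs.eq_or_lt with h2 | h2
        · rw [← h2] at hne; exact hne (tj_zero j)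
        · exact hjS (Finset.mem_union_left _ (tj_ne_zero h2 hne))
      · by_contra hne
        rcases ht.eq_or_lt with h2 | h2
        · rw [← h2] at hne; exact hne (tj_zero j)
        · exact hjS (Finset.mem_union_right _ (tj_ne_zero h2 hne))
  calc ∑ j ∈ J, F j ≤ ∑ j ∈ J, (if j ∈ S then B else 0) := Finset.sum_le_sum hle
    _ = (J.filter (· ∈ S)).card * B := by
        rw [← Finset.sum_filter, Finset.sum_const, nsmul_eq_mul]
    _ ≤ 6 * B := by
        apply mul_le_mul_of_nonneg_right _ hB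
        have : (J.filter (· ∈ S)).card ≤ S.card :=
          Finset.card_le_card (fun j hj => (Finset.mem_filter.1 hj).2)
        exact_mod_cast this.trans hS

section Rho

variable [Fintype V] {G : SimpleGraph V} {w : Sym2 V → ℝ}

open Classical in
/-- truncated distance to `A` -/
def rho (G : SimpleGraph V) (w : Sym2 V → ℝ) (A : Set V) (M : ℝ) (x : V) : ℝ :=
  (insert M ((Finset.univ.filter (fun a => a ∈ A ∧ G.Reachable x a)).image (gd G w x))).min'
    (Finset.insert_nonempty _ _)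

variable {A : Set V} {M : ℝ}

lemma rho_le : ∀ x, rho G w A M x ≤ M := fun x => Finset.min'_le _ _ (Finset.mem_insert_self _ _)

lemma rho_le_gd {x a : V} (ha : a ∈ A) (h : G.Reachable x a) : rho G w A M x ≤ gd G w x a := by
  classical
  apply Finset.min'_le
  apply Finset.mem_insert_of_mem
  exact Finset.mem_image_of_mem _ (Finset.mem_filter.2 ⟨Finset.mem_univ _, ha, h⟩)

lemma rho_cases (x : V) : rho G w A M x = M ∨ ∃ a ∈ A, G.Reachable x a ∧ rho G w A M x = gd G w x a := by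
  classical
  have h := Finset.min'_mem (insert M ((Finset.univ.filter
    (fun a => a ∈ A ∧ G.Reachable x a)).image (gd G w x))) (Finset.insert_nonempty _ _)
  rcases Finset.mem_insert.1 h with h | h
  · exact Or.inl h
  · obtain ⟨a, ha, h2⟩ := Finset.mem_image.1 h
    rw [Finset.mem_filter] at ha
    exact Or.inr ⟨a, ha.2.1, ha.2.2, h2.symm⟩

variable (hw : Pos G w) (hM : 0 < M)
include hw hM

lemma rho_nonneg (x : V) : 0 ≤ rho G w A M x := by
  rcases rho_cases (G := G) (w := w) (A := A) (M := M) x with h | ⟨a, -, -, h⟩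
  · rw [h]; exact hM.le
  · rw [h]; exact gd_nonneg hw _ _

lemma rho_mem {x : V} (hx : x ∈ A) : rho G w A M x = 0 :=
  le_antisymm ((rho_le_gd hx (SimpleGraph.Reachable.refl x)).trans (gd_self hw x).le)
    (rho_nonneg hw hM x)

omit hM in
lemma rho_lip_aux {x y : V} (h : G.Adj x y) : rho G w A M x ≤ rho G w A M y + w s(x, y) := by
  have h0 := hw.adj h
  rcases rho_cases (G := G) (w := w) (A := A) (M := M) y with h1 | ⟨a, ha, hr, h1⟩
  · rw [h1]
    have := rho_le (G := G) (w := w) (A := A) (M := M) x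
    linarith
  · have h2 := rho_le_gd (w := w) (M := M) ha (h.reachable.trans hr)
    have h3 := gd_tri hw h.reachable hr
    have h4 := gd_adj hw h
    linarith

omit hM in
lemma rho_lip {x y : V} (h : G.Adj x y) : |rho G w A M x - rho G w A M y| ≤ w s(x, y) := by
  have h1 := rho_lip_aux (A := A) (M := M) hw h
  have h2 := rho_lip_aux (A := A) (M := M) hw h.symm
  rw [Sym2.eq_swap] at h2
  rw [abs_le]
  constructor <;> linarith

end Rho

lemma list_left_zero {ψ : V → ℝ} {L : List (ℝ × (V → Bool))} (hL : Nn L) {x y : V} (hx : ψ x = 0)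
    (hy : 0 ≤ ψ y) :
    (L.map (fun c => |(if c.2 x then ψ x * c.1 else 0) - (if c.2 y then ψ y * c.1 else 0)|)).sum ≤
      |ψ x - ψ y| * tot L := by
  induction L with
  | nil => simp
  | cons c L ih =>
    have h1 : 0 ≤ c.1 := hL c (by simp)
    have h2 := ih (fun c' hc' => hL c' (by simp [hc']))
    rw [List.map_cons, List.sum_cons, tot_cons, mul_add]
    have h3 : |(if c.2 x then ψ x * c.1 else 0) - (if c.2 y then ψ y * c.1 else 0)| ≤
        |ψ x - ψ y| * c.1 := by
      rw [hx]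
      simp only [zero_mul, ite_self, zero_sub, abs_neg]
      split_ifs
      · rw [abs_mul, abs_of_nonneg h1]
      · rw [abs_zero]; exact mul_nonneg (abs_nonneg _) h1
    linarith

/-- distant components -/
lemma exists_sep [Fintype V] {G : SimpleGraph V} {w : Sym2 V → ℝ} (hw : Pos G w) {D : ℝ}
    (h : Emb G w D) {M : ℝ} (hM : 0 ≤ M) : ∃ δ : V → V → ℝ, IsL1 δ ∧
    (∀ u v, G.Adj u v → δ u v ≤ D * w s(u, v)) ∧
    (∀ u v, G.Reachable u v → gd G w u v ≤ δ u v) ∧ (∀ u v, ¬ G.Reachable u v → M ≤ δ u v) := by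
  classical
  obtain ⟨δ, h1, h2, h3⟩ := (emb_iff hw).1 h
  let g : V → V → ℝ := fun z x => if G.Reachable z x then M else 0
  refine ⟨fun x y => δ x y + ∑ z : V, |g z x - g z y|, ?_, ?_, ?_, ?_⟩
  · exact h1.add (IsL1.sum Finset.univ (fun z _ => IsL1.abs (g z)))
  · intro u v huv
    have : ∀ z, g z u = g z v := by
      intro z
      have e : G.Reachable z u ↔ G.Reachable z v :=
        ⟨fun h => h.trans huv.reachable, fun h => h.trans huv.symm.reachable⟩
      simp only [g, e]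
    simp only [this, sub_self, abs_zero, Finset.sum_const_zero, add_zero]
    exact h2 u v huv
  · intro u v huv
    have := Finset.sum_nonneg (s := (Finset.univ : Finset V)) (f := fun z => |g z u - g z v|)
      (fun z _ => abs_nonneg _)
    have := h3 u v huv
    linarith
  · intro u v huv
    have h4 := Finset.single_le_sum (s := (Finset.univ : Finset V)) (f := fun z => |g z u - g z v|)
      (fun z _ => abs_nonneg _) (Finset.mem_univ u)
    have h5 : g u u = M := if_pos (SimpleGraph.Reachable.refl u)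
    have h6 : g u v = 0 := if_neg huv
    simp only [h5, h6, sub_zero, abs_of_nonneg hM] at h4
    have := h1.nonneg u v
    linarith

/-- the removal lemma -/
theorem removal [Fintype V] {G : SimpleGraph V} {w : Sym2 V → ℝ} (hw : Pos G w) (A : Set V)
    {δ₁ : V → V → ℝ} (h1 : IsL1 δ₁) {L : ℝ} (hL : 0 ≤ L)
    (hlip : ∀ u v, G.Adj u v → δ₁ u v ≤ L * w s(u, v))
    (hA : ∀ a ∈ A, ∀ b ∈ A, G.Reachable a b → gd G w a b ≤ δ₁ a b) {D : ℝ} (hD : 0 ≤ D)
    (hB : Emb (rm G A) w D) : Emb G w ((33 + 32 * L) * (L + 13 + 6 * D)) := by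
  classical
  have hw' : Pos (rm G A) w := hw.mono (rm_le G A)
  obtain ⟨M, hM, hgd⟩ := gd_bound hw
  obtain ⟨δf, hf1, hf2, hf3, hf4⟩ := exists_sep hw' hB hM.le
  obtain ⟨Lf, hLf, hcd⟩ := hf1.exists_cuts
  let ρ : V → ℝ := rho G w A M
  have hρ0 : ∀ x, 0 ≤ ρ x := rho_nonneg hw hM
  let J : Finset ℤ := Finset.univ.image (fun x => Int.log 2 (ρ x))
  let T : ℤ → List (ℝ × (V → Bool)) := fun j => trunc ((2 : ℝ) ^ j) Lf
  have hT : ∀ j, Nn (T j) := fun j => Nn_trunc (two_zpow_pos j) hLf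
  let lam : ℤ → V → V → ℝ := fun j x y => ((T j).map (fun c =>
    |(if c.2 x then tj j (ρ x) * c.1 else 0) - (if c.2 y then tj j (ρ y) * c.1 else 0)|)).sum
  have hlam : ∀ j, IsL1 (lam j) := fun j => IsL1.list (fun x => tj j (ρ x)) (T j)
  have htj0 : ∀ j x, 0 ≤ tj j (ρ x) := fun j x => tent_nonneg _
  have htj1 : ∀ j x, tj j (ρ x) ≤ 1 := fun j x => tent_le_one _
  let δ : V → V → ℝ := fun x y => δ₁ x y + |ρ x - ρ y| + ∑ j ∈ J, lam j x y
  have hδ : IsL1 δ := (h1.add (IsL1.abs ρ)).add (IsL1.sum J (fun j _ => hlam j))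
  -- upper bound
  have hup : ∀ x y, G.Adj x y → δ x y ≤ (L + 13 + 6 * D) * w s(x, y) := by
    intro x y hxy
    have hwxy := hw.adj hxy
    have hr : |ρ x - ρ y| ≤ w s(x, y) := rho_lip hw hxy
    have hlamle : ∀ j, lam j x y ≤ (2 + D) * w s(x, y) := by
      intro j
      have e1 : |tj j (ρ x) - tj j (ρ y)| * tot (T j) ≤ 2 * w s(x, y) := by
        rw [show tot (T j) = (2 : ℝ) ^ j from tot_trunc _ _]
        exact (tj_lip j _ _).trans (by linarith)
      have hDw : 0 ≤ D * w s(x, y) := mul_nonneg hD hwxy.le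
      by_cases hx : x ∈ A
      · have hx0 : tj j (ρ x) = 0 := by
          rw [show ρ x = 0 from rho_mem hw hM hx]; exact tj_zero j
        have := list_left_zero (ψ := fun x => tj j (ρ x)) (hT j) hx0 (htj0 j y)
        change lam j x y ≤ _ at this
        linarith
      · by_cases hy : y ∈ A
        · have hy0 : tj j (ρ y) = 0 := by
            rw [show ρ y = 0 from rho_mem hw hM hy]; exact tj_zero j
          have := list_left_zero (ψ := fun x => tj j (ρ x)) (hT j) hy0 (htj0 j x)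
          change lam j y x ≤ _ at this
          rw [(hlam j).comm, abs_sub_comm] at this
          linarith
        · have h2 := list_upper (ψ := fun x => tj j (ρ x)) (hT j) (htj0 j x) (htj0 j y)
            (htj1 j x) (htj1 j y)
          change lam j x y ≤ _ at h2
          have h3 : cd (T j) x y ≤ cd Lf x y := cd_trunc_le (two_zpow_pos j) Lf x y
          have h4 : δf x y ≤ D * w s(x, y) := hf2 x y ⟨hxy, hx, hy⟩
          rw [hcd] at h4
          linarith
    have hsum : ∑ j ∈ J, lam j x y ≤ 6 * ((2 + D) * w s(x, y)) := by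
      refine sum_scales (s := ρ x) (t := ρ y) (mul_nonneg (by linarith) hwxy.le) (hρ0 x) (hρ0 y)
        (fun j _ => hlamle j) ?_
      intro j _ h2 h3
      apply le_of_eq
      change ((T j).map (fun c => |(if c.2 x then tj j (ρ x) * c.1 else 0) -
        (if c.2 y then tj j (ρ y) * c.1 else 0)|)).sum = 0
      simp only [h2, h3, zero_mul, ite_self, sub_self, abs_zero]
      simp
    have := hlip x y hxy
    change δ₁ x y + |ρ x - ρ y| + ∑ j ∈ J, lam j x y ≤ _
    linarith
  -- lower bound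
  have hlow : ∀ x y, G.Reachable x y → ρ y ≤ ρ x → gd G w x y ≤ (33 + 32 * L) * δ x y := by
    intro x y hxy hρ
    have hδ0 := hδ.nonneg x y
    have hpart : δ₁ x y ≤ δ x y ∧ |ρ x - ρ y| ≤ δ x y ∧ ∀ j ∈ J, lam j x y ≤ δ x y := by
      have a1 := h1.nonneg x y
      have a2 := abs_nonneg (ρ x - ρ y)
      have a3 : 0 ≤ ∑ j ∈ J, lam j x y := Finset.sum_nonneg (fun j _ => (hlam j).nonneg x y)
      have a4 : ∀ j ∈ J, lam j x y ≤ ∑ j ∈ J, lam j x y := fun j hj =>
        Finset.single_le_sum (f := fun j => lam j x y) (fun j _ => (hlam j).nonneg x y) hj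
      change δ₁ x y ≤ δ₁ x y + |ρ x - ρ y| + ∑ j ∈ J, lam j x y ∧
        |ρ x - ρ y| ≤ δ₁ x y + |ρ x - ρ y| + ∑ j ∈ J, lam j x y ∧
        ∀ j ∈ J, lam j x y ≤ δ₁ x y + |ρ x - ρ y| + ∑ j ∈ J, lam j x y
      refine ⟨by linarith, by linarith, fun j hj => ?_⟩
      have := a4 j hj
      linarith
    obtain ⟨p1, p2, p3⟩ := hpart
    by_cases hbig : ρ x ≤ 16 * δ x y
    · by_cases hreach : ∃ a ∈ A, G.Reachable x a
      · obtain ⟨a, ha, hra⟩ := hreach
        have hx1 : ρ x < M := (rho_le_gd (w := w) (M := M) ha hra).trans_lt (hgd _ _)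
        have hy1 : ρ y < M := (rho_le_gd (w := w) (M := M) ha (hxy.symm.trans hra)).trans_lt (hgd _ _)
        rcases rho_cases (G := G) (w := w) (A := A) (M := M) x with h2 | ⟨b, hb, hrb, h2⟩
        · exact absurd h2 hx1.ne
        rcases rho_cases (G := G) (w := w) (A := A) (M := M) y with h3 | ⟨c, hc, hrc, h3⟩
        · exact absurd h3 hy1.ne
        have hbc : G.Reachable b c := hrb.symm.trans (hxy.trans hrc)
        have e1 := gd_tri hw hrb (hbc.trans hrc.symm)
        have e2 := gd_tri hw hbc hrc.symm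
        have e3 := hA b hb c hc hbc
        have e4 : δ₁ b c ≤ δ₁ b x + δ₁ x y + δ₁ y c := by
          have := h1.tri b x c
          have := h1.tri x y c
          linarith
        have e5 : δ₁ b x ≤ L * gd G w x b := by rw [h1.comm]; exact h1.le_gd hw hlip hrb
        have e6 : δ₁ y c ≤ L * gd G w y c := h1.le_gd hw hlip hrc
        rw [gd_comm hw c y] at e2
        change ρ x = _ at h2
        change ρ y = _ at h3
        rw [← h2] at e1 e5
        rw [← h3] at e2 e6
        have e7 : L * ρ y ≤ L * ρ x := mul_le_mul_of_nonneg_left hρ hL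
        have e8 : L * ρ x ≤ L * (16 * δ x y) := mul_le_mul_of_nonneg_left hbig hL
        have e9 : (33 + 32 * L) * δ x y = 33 * δ x y + 2 * (L * (16 * δ x y)) := by ring
        rw [e9]
        linarith
      · have hxM : ρ x = M := by
          rcases rho_cases (G := G) (w := w) (A := A) (M := M) x with h2 | ⟨b, hb, hrb, h2⟩
          · exact h2
          · exact absurd ⟨b, hb, hrb⟩ hreach
        have := hgd x y
        have h5 : 0 ≤ L * δ x y := mul_nonneg hL hδ0
        have e9 : (33 + 32 * L) * δ x y = 33 * δ x y + 32 * (L * δ x y) := by ring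
        rw [e9]
        linarith
    · rw [not_le] at hbig
      have hx0 : 0 < ρ x := lt_of_le_of_lt (by positivity) hbig
      set j := Int.log 2 (ρ x) with hj
      have hjJ : j ∈ J := Finset.mem_image_of_mem _ (Finset.mem_univ x)
      have hp := two_zpow_pos j
      have h3 : ρ x < ((2 : ℕ) : ℝ) ^ (Int.log 2 (ρ x) + 1) :=
        Int.lt_zpow_succ_log_self (by norm_num) (ρ x)
      push_cast at h3
      rw [← hj, zpow_add_one₀ (by norm_num : (2 : ℝ) ≠ 0)] at h3
      have ht1 : tj j (ρ x) = 1 := tj_one hx0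
      have ht2 : 1 / 2 ≤ tj j (ρ y) := by
        have h4 := tj_lip j (ρ x) (ρ y)
        rw [ht1] at h4
        have h5 : |1 - tj j (ρ y)| * (2 : ℝ) ^ j ≤ (1 / 2) * (2 : ℝ) ^ j := by linarith
        have h6 := le_of_mul_le_mul_right h5 hp
        have h7 := (abs_le.1 h6).2
        linarith
      have h8 := list_lower (ψ := fun x => tj j (ρ x)) (hT j) (κ := 1 / 2) (x := x) (y := y)
        (by simp only [ht1]; norm_num) ht2 (by norm_num)
      change 1 / 2 * cd (T j) x y ≤ lam j x y at h8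
      have h9 := p3 j hjJ
      have h10 : cd (T j) x y ≤ (2 : ℝ) ^ j / 4 := by linarith
      have h11 : cd Lf x y ≤ 2 * cd (T j) x y := le_cd_trunc hp hLf x y h10
      have h12 : δf x y ≤ 4 * δ x y := by rw [hcd]; linarith
      have hr : (rm G A).Reachable x y := by
        by_contra hcon
        have := hf4 x y hcon
        have := rho_le (G := G) (w := w) (A := A) (M := M) x
        change ρ x ≤ M at this
        linarith
      have h13 := hf3 x y hr
      have h14 := gd_mono hw (rm_le G A) hr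
      have h5 : 0 ≤ L * δ x y := mul_nonneg hL hδ0
      have e9 : (33 + 32 * L) * δ x y = 33 * δ x y + 32 * (L * δ x y) := by ring
      rw [e9]
      linarith
  refine (emb_iff hw).2 ⟨fun x y => (33 + 32 * L) * δ x y, hδ.smul (by linarith), ?_, ?_⟩
  · intro u v huv
    have := mul_le_mul_of_nonneg_left (hup u v huv) (by linarith : (0 : ℝ) ≤ 33 + 32 * L)
    rw [← mul_assoc] at this
    exact this
  · intro u v huv
    rcases le_total (ρ v) (ρ u) with h2 | h2
    · exact hlow u v huv h2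
    · have := hlow v u huv.symm h2
      rw [gd_comm hw, hδ.comm] at this
      exact this

end KSum52
end
end

section
set_option linter.all false

/-!
# Path-like sums
-/

noncomputable section

namespace KSum52

open Finset

universe u

variable {V : Type u}

/-- the graph embeds into `ℓ₁` with distortion `D`, for all positive weights -/
def EmbAll (G : SimpleGraph V) (D : ℝ) : Prop := ∀ w : Sym2 V → ℝ, Pos G w → Emb G w D

/-- keep only the edges inside `S` -/
def rs (G : SimpleGraph V) (S : Set V) : SimpleGraph V where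
  Adj x y := G.Adj x y ∧ x ∈ S ∧ y ∈ S
  symm := ⟨fun x y h => ⟨h.1.symm, h.2.2, h.2.1⟩⟩
  loopless := ⟨fun x h => G.loopless.irrefl x h.1⟩

lemma rs_le (G : SimpleGraph V) (S : Set V) : rs G S ≤ G := fun _ _ h => h.1

/-- subgraphs -/
lemma EmbAll.mono [Fintype V] {G G' : SimpleGraph V} {D : ℝ} (h : EmbAll G D) (hD : 0 ≤ D)
    (hle : G' ≤ G) : EmbAll G' D := by
  classical
  intro w hw
  obtain ⟨M, hM, hgd⟩ := gd_bound hw
  let B : ℝ := D * M + 1
  have hB : 0 < B := by positivity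
  let w' : Sym2 V → ℝ := fun e => if e ∈ G'.edgeSet then w e else B
  have hw' : Pos G w' := by
    intro e he
    simp only [w']
    split_ifs with h1
    · exact hw e h1
    · exact hB
  obtain ⟨δ, h1, h2, h3⟩ := (emb_iff hw').1 (h w' hw')
  have hadj : ∀ u v, G'.Adj u v → δ u v ≤ D * w s(u, v) := by
    intro u v huv
    have := h2 u v (hle huv)
    have e : w' s(u, v) = w s(u, v) := if_pos ((SimpleGraph.mem_edgeSet G').2 huv)
    rwa [e] at this
  refine (emb_iff hw).2 ⟨δ, h1, hadj, fun u v huv => ?_⟩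
  have h4 := h1.le_gd hw hadj huv
  have h5 : D * gd G' w u v ≤ D * M := mul_le_mul_of_nonneg_left (hgd u v).le hD
  have h6 := h3 u v (huv.mono hle)
  obtain ⟨p, hp⟩ := exists_gd hw' (huv.mono hle)
  have h7 : wl w' p < B := by
    rw [hp]
    change _ < D * M + 1
    linarith
  have h8 : ∀ e ∈ p.edges, e ∈ G'.edgeSet := by
    intro e he
    by_contra hne
    have h9 : w' e = B := if_neg hne
    have h10 : w' e ≤ (p.edges.map w').sum := by
      refine List.single_le_sum ?_ _ (List.mem_map_of_mem he)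
      intro x hx
      obtain ⟨e', he', rfl⟩ := List.mem_map.1 hx
      exact (hw' e' (p.edges_subset_edgeSet he')).le
    rw [h9] at h10
    exact absurd h7 (not_lt.2 h10)
  have h9 : wl w (p.transfer G' h8) = wl w' p := by
    unfold wl
    rw [SimpleGraph.Walk.edges_transfer]
    congr 1
    refine List.map_congr_left (fun e he => ?_)
    exact (if_pos (h8 e he)).symm
  have h10 := gd_le hw (p.transfer G' h8)
  rw [h9, hp] at h10
  linarith

/-- disjoint unions -/
lemma emb_label [Fintype V] {G : SimpleGraph V} {w : Sym2 V → ℝ} (hw : Pos G w) {D : ℝ}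
    {ι : Type*} (c : V → ι) (hc : ∀ x y, G.Adj x y → c x = c y)
    (h : ∀ i, Emb (rs G {x | c x = i}) w D) : Emb G w D := by
  classical
  have hw' : ∀ i, Pos (rs G {x | c x = i}) w := fun i => hw.mono (rs_le _ _)
  have h1 : ∀ i, ∃ δ : V → V → ℝ, IsL1 δ ∧
      (∀ u v, (rs G {x | c x = i}).Adj u v → δ u v ≤ D * w s(u, v)) ∧
      (∀ u v, c u = i → c v = i → (rs G {x | c x = i}).Reachable u v →
        gd (rs G {x | c x = i}) w u v ≤ δ u v) ∧ (∀ u v, c u ≠ i → c v ≠ i → δ u v = 0) := by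
    intro i
    obtain ⟨δ, h1, h2, h3⟩ := (emb_iff (hw' i)).1 (h i)
    obtain ⟨δ', h4, h5, h6⟩ := h1.restrict {x | c x = i}
    refine ⟨δ', h4, ?_, ?_, ?_⟩
    · intro u v huv
      rw [h5 u huv.2.1 v huv.2.2]
      exact h2 u v huv
    · intro u v hu hv huv
      rw [h5 u hu v hv]
      exact h3 u v huv
    · intro u v hu hv
      exact h6 u hu v hv
  choose δ hδ1 hδ2 hδ3 hδ4 using h1
  have key : ∀ x y, c x = c y → ∑ i ∈ Finset.univ.image c, δ i x y = δ (c x) x y := by
    intro x y hxy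
    refine Finset.sum_eq_single (c x) ?_ ?_
    · intro i _ hi
      exact hδ4 i x y (fun h => hi h.symm) (fun h => hi (hxy.trans h).symm)
    · intro h
      exact absurd (Finset.mem_image_of_mem c (Finset.mem_univ x)) h
  have hwalk : ∀ x y, G.Reachable x y → c x = c y ∧ (rs G {z | c z = c x}).Reachable x y := by
    rintro x y ⟨p⟩
    induction p with
    | nil => exact ⟨rfl, SimpleGraph.Reachable.refl _⟩
    | cons hadj p ih =>
      have e := hc _ _ hadj
      refine ⟨e.trans ih.1, ?_⟩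
      have h2 := ih.2
      rw [← e] at h2
      exact SimpleGraph.Reachable.trans
        (SimpleGraph.Adj.reachable (show (rs G {z | c z = c _}).Adj _ _ from ⟨hadj, rfl, e.symm⟩)) h2
  refine (emb_iff hw).2 ⟨fun x y => ∑ i ∈ Finset.univ.image c, δ i x y,
    IsL1.sum _ (fun i _ => hδ1 i), ?_, ?_⟩
  · intro u v huv
    have e := hc u v huv
    simp only [key u v e]
    exact hδ2 _ u v ⟨huv, rfl, e.symm⟩
  · intro u v huv
    obtain ⟨e, hr⟩ := hwalk u v huv
    simp only [key u v e]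
    exact (gd_mono hw (rs_le _ _) hr).trans (hδ3 _ u v rfl e.symm hr)

/-- a shortest walk is a geodesic -/
lemma geodesic [Fintype V] {G : SimpleGraph V} {w : Sym2 V → ℝ} (hw : Pos G w) {a b : V}
    (P : G.Walk a b) (hP : ∀ q : G.Walk a b, wl w P ≤ wl w q) {x y : V} (hx : x ∈ P.support)
    (hy : y ∈ P.support) : gd G w x y ≤ |gd G w a x - gd G w a y| := by
  classical
  have hab : ∀ z (r : G.Walk a z) (r' : G.Walk z b), wl w r + wl w r' = wl w P →
      wl w r ≤ gd G w a z := by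
    intro z r r' h
    obtain ⟨q, hq⟩ := exists_gd hw ⟨r⟩
    have := hP (q.append r')
    rw [wl_append] at this
    linarith
  have hspec := P.take_spec hx
  have hlen : wl w (P.takeUntil x hx) + wl w (P.dropUntil x hx) = wl w P := by
    rw [← wl_append, hspec]
  have hy2 : y ∈ (P.takeUntil x hx).support ∨ y ∈ (P.dropUntil x hx).support := by
    rw [← SimpleGraph.Walk.mem_support_append_iff, hspec]
    exact hy
  rcases hy2 with h | h
  · have h2 : wl w ((P.takeUntil x hx).takeUntil y h) + wl w ((P.takeUntil x hx).dropUntil y h) =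
        wl w (P.takeUntil x hx) := by rw [← wl_append, SimpleGraph.Walk.take_spec]
    have h3 := hab x (P.takeUntil x hx) (P.dropUntil x hx) hlen
    have h4 := gd_le hw ((P.takeUntil x hx).takeUntil y h)
    have h5 := gd_le hw ((P.takeUntil x hx).dropUntil y h)
    rw [gd_comm hw x y]
    exact le_trans (by linarith) (le_abs_self _)
  · have h2 : wl w ((P.dropUntil x hx).takeUntil y h) + wl w ((P.dropUntil x hx).dropUntil y h) =
        wl w (P.dropUntil x hx) := by rw [← wl_append, SimpleGraph.Walk.take_spec]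
    have h3 := hab y ((P.takeUntil x hx).append ((P.dropUntil x hx).takeUntil y h))
      ((P.dropUntil x hx).dropUntil y h) (by rw [wl_append]; linarith)
    rw [wl_append] at h3
    have h4 := gd_le hw (P.takeUntil x hx)
    have h5 := gd_le hw ((P.dropUntil x hx).takeUntil y h)
    rw [abs_sub_comm]
    exact le_trans (by linarith) (le_abs_self _)

/-- a walk crosses every separator -/
lemma crossing {G : SimpleGraph V} {lo hi : V → ℕ}
    (hadj : ∀ x y, G.Adj x y → lo x ≤ hi y ∧ lo y ≤ hi x) {i : ℕ} {a b : V} (p : G.Walk a b)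
    (ha : lo a ≤ i) (hb : i < hi b) : ∃ z ∈ p.support, lo z ≤ i ∧ i < hi z := by
  induction p with
  | nil => exact ⟨_, by simp, ha, hb⟩
  | @cons u v x h p ih =>
    by_cases h1 : i < hi u
    · exact ⟨u, by simp, ha, h1⟩
    · have h2 := (hadj _ _ h).2
      obtain ⟨z, hz, h3⟩ := ih (by omega) hb
      exact ⟨z, by simp [hz], h3⟩

/-- the constant -/
def pc : ℕ → ℝ → ℝ
  | 0, D => D
  | k + 1, D => (33 + 32 * 1) * (1 + 13 + 6 * pc k D)

lemma pc_nonneg (k : ℕ) {D : ℝ} (hD : 0 ≤ D) : 0 ≤ pc k D := by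
  induction k with
  | zero => exact hD
  | succ k ih => rw [pc]; positivity

/-- path-like sums -/
theorem path_lemma [Fintype V] (k : ℕ) : ∀ (G : SimpleGraph V) (lo hi : V → ℕ) (D : ℝ), 0 ≤ D →
    (∀ x, lo x ≤ hi x) → (∀ x y, G.Adj x y → lo x ≤ hi y ∧ lo y ≤ hi x) →
    (∀ i, {x | lo x ≤ i ∧ i < hi x}.ncard ≤ k) →
    (∀ i, EmbAll (rs G {x | lo x ≤ i ∧ i ≤ hi x}) D) → EmbAll G (pc k D) := by
  classical
  induction k with
  | zero =>
    intro G lo hi D hD hle hadj hcard hpart w hw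
    have heq : ∀ x, lo x = hi x := by
      intro x
      by_contra hne
      have h1 : x ∈ {y | lo y ≤ lo x ∧ lo x < hi y} := ⟨le_rfl, lt_of_le_of_ne (hle x) hne⟩
      have h2 := (Set.ncard_eq_zero (Set.toFinite _)).1 (Nat.le_zero.1 (hcard (lo x)))
      rw [h2] at h1
      exact h1
    refine emb_label hw lo ?_ ?_
    · intro x y hxy
      have := hadj x y hxy
      rw [← heq, ← heq] at this
      omega
    · intro i
      have e : {x | lo x = i} = {x | lo x ≤ i ∧ i ≤ hi x} := by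
        ext x
        simp only [Set.mem_setOf_eq, ← heq]
        omega
      rw [e]
      exact hpart i w (hw.mono (rs_le _ _))
  | succ k ih =>
    intro G lo hi D hD hle hadj hcard hpart w hw
    have hex : ∀ c : G.ConnectedComponent, ∃ (a b : V) (P : G.Walk a b),
        G.connectedComponentMk a = c ∧ (∀ z, G.connectedComponentMk z = c → lo a ≤ lo z) ∧
        (∀ z, G.connectedComponentMk z = c → hi z ≤ hi b) ∧
        ∀ q : G.Walk a b, wl w P ≤ wl w q := by
      intro c
      have hne : (Finset.univ.filter (fun z => G.connectedComponentMk z = c)).Nonempty := by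
        obtain ⟨z, hz⟩ := c.exists_rep
        exact ⟨z, Finset.mem_filter.2 ⟨Finset.mem_univ _, hz⟩⟩
      obtain ⟨a, ha, ha2⟩ := Finset.exists_min_image _ lo hne
      obtain ⟨b, hb, hb2⟩ := Finset.exists_max_image _ hi hne
      rw [Finset.mem_filter] at ha hb
      have hr : G.Reachable a b := SimpleGraph.ConnectedComponent.exact (ha.2.trans hb.2.symm)
      obtain ⟨P, hP⟩ := exists_min_walk hw hr
      exact ⟨a, b, P, ha.2, fun z hz => ha2 z (Finset.mem_filter.2 ⟨Finset.mem_univ _, hz⟩),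
        fun z hz => hb2 z (Finset.mem_filter.2 ⟨Finset.mem_univ _, hz⟩), hP⟩
    choose a b P ha hlo hhi hP using hex
    let cc : V → G.ConnectedComponent := fun x => G.connectedComponentMk x
    let A : Set V := {x | x ∈ (P (cc x)).support}
    have hra : ∀ x, G.Reachable (a (cc x)) x := fun x =>
      SimpleGraph.ConnectedComponent.exact (ha (cc x))
    have hccadj : ∀ {u v}, G.Reachable u v → cc u = cc v := fun h =>
      SimpleGraph.ConnectedComponent.sound h
    have hG' : EmbAll (rm G A) (pc k D) := by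
      refine ih (rm G A) (fun x => if x ∈ A then 0 else lo x) (fun x => if x ∈ A then 0 else hi x)
        D hD ?_ ?_ ?_ ?_
      · intro x
        split_ifs
        · exact le_rfl
        · exact hle x
      · rintro x y ⟨h1, h2, h3⟩
        simp only [if_neg h2, if_neg h3]
        exact hadj x y h1
      · intro i
        have hsub : {x | (if x ∈ A then 0 else lo x) ≤ i ∧ i < (if x ∈ A then 0 else hi x)} ⊆
            {x | lo x ≤ i ∧ i < hi x} \ A := by
          intro x hx
          simp only [Set.mem_setOf_eq] at hx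
          by_cases hxA : x ∈ A
          · rw [if_pos hxA, if_pos hxA] at hx
            omega
          · rw [if_neg hxA, if_neg hxA] at hx
            exact ⟨hx, hxA⟩
        refine (Set.ncard_le_ncard hsub (Set.toFinite _)).trans ?_
        by_cases hS : {x | lo x ≤ i ∧ i < hi x}.Nonempty
        · obtain ⟨z, hz1, hz2⟩ := hS
          obtain ⟨z', hz', h3, h4⟩ := crossing hadj (P (cc z))
            (i := i) ((hlo (cc z) z rfl).trans hz1) (lt_of_lt_of_le hz2 (hhi (cc z) z rfl))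
          have hcz : cc z' = cc z := by
            have : G.Reachable (a (cc z)) z' := ⟨(P (cc z)).takeUntil z' hz'⟩
            exact (hccadj this).symm.trans (ha (cc z))
          have hzA : z' ∈ A := by
            change z' ∈ (P (cc z')).support
            rw [hcz]
            exact hz'
          have h5 : ({x | lo x ≤ i ∧ i < hi x} \ A).ncard < {x | lo x ≤ i ∧ i < hi x}.ncard := by
            refine Set.ncard_lt_ncard ?_ (Set.toFinite _)
            rw [Set.ssubset_iff_of_subset Set.diff_subset]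
            exact ⟨z', ⟨h3, h4⟩, fun h => h.2 hzA⟩
          have := hcard i
          omega
        · rw [Set.not_nonempty_iff_eq_empty] at hS
          rw [hS]
          simp
      · intro i
        refine (hpart i).mono hD ?_
        rintro x y ⟨⟨h1, h2, h3⟩, h4, h5⟩
        simp only [Set.mem_setOf_eq, if_neg h2] at h4
        simp only [Set.mem_setOf_eq, if_neg h3] at h5
        exact ⟨h1, h4, h5⟩
    refine removal hw A (δ₁ := fun x y => |gd G w (a (cc x)) x - gd G w (a (cc y)) y|)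
      (IsL1.abs (fun x => gd G w (a (cc x)) x)) (L := 1) zero_le_one ?_ ?_ (pc_nonneg k hD)
      (hG' w (hw.mono (rm_le _ _)))
    · intro u v huv
      have e : cc u = cc v := hccadj huv.reachable
      rw [← e, one_mul]
      exact gd_lip hw (hra u) huv
    · intro x hx y hy hxy
      have e : cc x = cc y := hccadj hxy
      rw [← e]
      have hy' : y ∈ (P (cc x)).support := by rw [e]; exact hy
      exact geodesic hw (P (cc x)) (hP (cc x)) hx hy'

end KSum52
end
end

section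
set_option linter.all false

/-!
# Star-like sums
-/

noncomputable section

namespace KSum52

open Finset

universe u

variable {V : Type u}

/-- `ℓ₁` norm of a difference -/
def n1 {m : ℕ} (a b : Fin m → ℝ) : ℝ := ∑ i, |a i - b i|

lemma n1_nonneg {m : ℕ} (a b : Fin m → ℝ) : 0 ≤ n1 a b := Finset.sum_nonneg (fun _ _ => abs_nonneg _)

lemma n1_comm {m : ℕ} (a b : Fin m → ℝ) : n1 a b = n1 b a :=
  Finset.sum_congr rfl (fun _ _ => abs_sub_comm _ _)

lemma n1_tri {m : ℕ} (a b c : Fin m → ℝ) : n1 a c ≤ n1 a b + n1 b c := by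
  unfold n1
  rw [← Finset.sum_add_distrib]
  exact Finset.sum_le_sum (fun i _ => abs_sub_le _ _ _)

/-- differences of convex combinations -/
lemma n1_comb {m : ℕ} {ι : Type*} (K : Finset ι) (f : ι → Fin m → ℝ) (p q : ι → ℝ) (b : Fin m → ℝ)
    (hpq : ∑ a ∈ K, p a = ∑ a ∈ K, q a) :
    n1 (fun i => ∑ a ∈ K, p a * f a i) (fun i => ∑ a ∈ K, q a * f a i) ≤
      ∑ a ∈ K, |p a - q a| * n1 (f a) b := by
  unfold n1
  simp only [Finset.mul_sum]
  rw [Finset.sum_comm]
  refine Finset.sum_le_sum (fun i _ => ?_)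
  have h : (∑ a ∈ K, p a * f a i) - ∑ a ∈ K, q a * f a i = ∑ a ∈ K, (p a - q a) * (f a i - b i) := by
    have h2 : ∑ a ∈ K, (p a - q a) * b i = 0 := by
      rw [← Finset.sum_mul, Finset.sum_sub_distrib, hpq, sub_self, zero_mul]
    simp only [mul_sub, Finset.sum_sub_distrib, sub_mul] at h2 ⊢
    linarith
  rw [h]
  refine (Finset.abs_sum_le_sum_abs _ _).trans (Finset.sum_le_sum (fun a _ => ?_))
  rw [abs_mul]

lemma n1_comb_single {m : ℕ} {ι : Type*} (K : Finset ι) (f : ι → Fin m → ℝ) (p : ι → ℝ)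
    (b : Fin m → ℝ) (hp : ∑ a ∈ K, p a = 1) (h0 : ∀ a ∈ K, 0 ≤ p a) :
    n1 (fun i => ∑ a ∈ K, p a * f a i) b ≤ ∑ a ∈ K, p a * n1 (f a) b := by
  unfold n1
  simp only [Finset.mul_sum]
  rw [Finset.sum_comm]
  refine Finset.sum_le_sum (fun i _ => ?_)
  have h : (∑ a ∈ K, p a * f a i) - b i = ∑ a ∈ K, p a * (f a i - b i) := by
    simp only [mul_sub, Finset.sum_sub_distrib]
    rw [← Finset.sum_mul, hp, one_mul]
  rw [h]
  refine (Finset.abs_sum_le_sum_abs _ _).trans (Finset.sum_le_sum (fun a ha => ?_))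
  rw [abs_mul, abs_of_nonneg (h0 a ha)]

lemma gd_pos [Fintype V] {G : SimpleGraph V} {w : Sym2 V → ℝ} (hw : Pos G w) {x y : V}
    (h : G.Reachable x y) (hne : x ≠ y) : 0 < gd G w x y := by
  obtain ⟨p, hp⟩ := exists_gd hw h
  rw [← hp]
  cases p with
  | nil => exact absurd rfl hne
  | cons hadj p =>
    rw [wl_cons]
    exact add_pos_of_pos_of_nonneg (hw.adj hadj) (wl_nonneg hw p)

/-- the data of a star-like sum with center `C` -/
structure StarData (G : SimpleGraph V) (C : Set V) (k : ℕ) (K : V → Finset V) : Prop where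
  sub : ∀ x ∉ C, ∀ a ∈ K x, a ∈ C
  clique : ∀ x ∉ C, ∀ a ∈ K x, ∀ b ∈ K x, a ≠ b → G.Adj a b
  card : ∀ x ∉ C, (K x).card ≤ k
  const : ∀ x ∉ C, ∀ y ∉ C, G.Adj x y → K x = K y
  nbr : ∀ x ∉ C, ∀ a ∈ C, G.Adj x a → a ∈ K x

section Star

variable [Fintype V] {G : SimpleGraph V} {C : Set V} {k : ℕ} {K : V → Finset V}
  (hS : StarData G C k K) {w : Sym2 V → ℝ} (hw : Pos G w)

/-- the weights of the center -/
def w0 (G : SimpleGraph V) (w : Sym2 V → ℝ) (hw : Pos G w) : Sym2 V → ℝ :=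
  Sym2.lift ⟨fun a b => gd G w a b, fun a b => gd_comm hw a b⟩

include hS hw

lemma w0_pos : Pos (rs G C) (w0 G w hw) := by
  intro e
  induction e using Sym2.ind with
  | h a b =>
    intro he
    rw [SimpleGraph.mem_edgeSet] at he
    exact gd_pos hw he.1.reachable he.1.ne

lemma star_walk {x b : V} (hb : b ∈ C) (p : G.Walk x b) :
    (x ∈ C → (rs G C).Reachable x b ∧ gd (rs G C) (w0 G w hw) x b ≤ wl w p) ∧
    (x ∉ C → ∃ a ∈ K x, G.Reachable x a ∧ (rs G C).Reachable a b ∧
      gd G w x a + gd (rs G C) (w0 G w hw) a b ≤ wl w p) := by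
  classical
  have hw0 := w0_pos hS hw
  induction p with
  | nil =>
    refine ⟨fun _ => ⟨SimpleGraph.Reachable.refl _, ?_⟩, fun h => absurd hb h⟩
    rw [gd_self hw0, wl_nil]
  | @cons x v b h p ih =>
    obtain ⟨ih1, ih2⟩ := ih hb
    rw [wl_cons]
    have hx := gd_adj hw h
    by_cases hv : v ∈ C
    · obtain ⟨r1, l1⟩ := ih1 hv
      constructor
      · intro hxC
        have hadj : (rs G C).Adj x v := ⟨h, hxC, hv⟩
        refine ⟨hadj.reachable.trans r1, ?_⟩
        have h2 := gd_tri hw0 hadj.reachable r1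
        have h3 := gd_adj hw0 hadj
        have h4 : w0 G w hw s(x, v) = gd G w x v := rfl
        linarith
      · intro hxC
        exact ⟨v, hS.nbr x hxC v hv h, h.reachable, r1, by linarith⟩
    · obtain ⟨a, ha, r0, r1, l1⟩ := ih2 hv
      constructor
      · intro hxC
        have hxK : x ∈ K v := hS.nbr v hv x hxC h.symm
        by_cases hxa : x = a
        · subst hxa
          refine ⟨r1, ?_⟩
          have := gd_nonneg hw v x
          have := hw.adj h
          linarith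
        · have hadj : (rs G C).Adj x a := ⟨hS.clique v hv x hxK a ha hxa, hxC, hS.sub v hv a ha⟩
          refine ⟨hadj.reachable.trans r1, ?_⟩
          have h2 := gd_tri hw0 hadj.reachable r1
          have h3 := gd_adj hw0 hadj
          have h4 : w0 G w hw s(x, a) = gd G w x a := rfl
          have h5 := gd_tri hw h.reachable r0
          linarith
      · intro hxC
        have h5 := gd_tri hw h.reachable r0
        exact ⟨a, by rw [hS.const x hxC v hv h]; exact ha, h.reachable.trans r0, r1, by linarith⟩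

lemma w0_walk {a b : V} (p : (rs G C).Walk a b) : gd G w a b ≤ wl (w0 G w hw) p := by
  induction p with
  | nil => rw [gd_self hw, wl_nil]
  | @cons a v b h p ih =>
    rw [wl_cons]
    have h4 : w0 G w hw s(a, v) = gd G w a v := rfl
    have h5 := gd_tri hw h.1.reachable (SimpleGraph.Reachable.mono (rs_le G C) ⟨p⟩ : G.Reachable v b)
    linarith

/-- all of `K x` is reachable from `x`, or nothing -/
lemma reach_all {x : V} (hx : x ∉ C) {a b : V} (ha : a ∈ K x) (hb : b ∈ K x)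
    (hr : G.Reachable x a) : G.Reachable x b := by
  by_cases h : a = b
  · rw [← h]; exact hr
  · exact hr.trans (hS.clique x hx a ha b hb h).reachable

end Star

/-! ## Extension from a finite set -/

section Ext

variable {ι : Type*} {m : ℕ}

/-- numerator -/
def nu (d : ι → ℝ) (r : ℝ) (a : ι) : ℝ := max 0 (2 * r - d a)

/-- denominator -/
def de (K : Finset ι) (d : ι → ℝ) (r : ℝ) : ℝ := ∑ a ∈ K, nu d r a

/-- the extension -/
def ext (K : Finset ι) (f : ι → Fin m → ℝ) (d : ι → ℝ) (r : ℝ) : Fin m → ℝ :=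
  fun i => ∑ a ∈ K, (nu d r a / de K d r) * f a i

variable {K : Finset ι} {f : ι → Fin m → ℝ} {d : ι → ℝ} {r : ℝ} {a₀ : ι}

lemma nu_nonneg (d : ι → ℝ) (r : ℝ) (a : ι) : 0 ≤ nu d r a := le_max_left _ _

lemma le_de (h0 : a₀ ∈ K) (hr : d a₀ = r) : r ≤ de K d r := by
  have h1 : r ≤ nu d r a₀ := by
    unfold nu
    rw [hr]
    exact le_trans (by linarith) (le_max_right _ _)
  exact h1.trans (Finset.single_le_sum (fun a _ => nu_nonneg d r a) h0)

lemma sum_p (h : 0 < de K d r) : ∑ a ∈ K, nu d r a / de K d r = 1 := by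
  rw [← Finset.sum_div]
  exact div_self h.ne'

lemma nu_ne {a : ι} (h : nu d r a ≠ 0) : d a < 2 * r := by
  by_contra hcon
  rw [not_lt] at hcon
  exact h (max_eq_left (by linarith))

lemma ext_near {D : ℝ} (hD : 0 ≤ D) (h0 : a₀ ∈ K) (hr : d a₀ = r) (hr0 : 0 < r)
    (hf : ∀ a ∈ K, n1 (f a) (f a₀) ≤ D * (d a + d a₀)) : n1 (ext K f d r) (f a₀) ≤ 3 * D * r := by
  have hde : 0 < de K d r := lt_of_lt_of_le hr0 (le_de h0 hr)
  have h1 := n1_comb_single K f (fun a => nu d r a / de K d r) (f a₀) (sum_p hde)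
    (fun a _ => div_nonneg (nu_nonneg _ _ _) hde.le)
  refine h1.trans ?_
  calc ∑ a ∈ K, nu d r a / de K d r * n1 (f a) (f a₀)
      ≤ ∑ a ∈ K, nu d r a / de K d r * (3 * D * r) := by
        refine Finset.sum_le_sum (fun a ha => ?_)
        by_cases hn : nu d r a = 0
        · rw [hn]; simp
        · refine mul_le_mul_of_nonneg_left ?_ (div_nonneg (nu_nonneg _ _ _) hde.le)
          have h2 := nu_ne hn
          refine (hf a ha).trans ?_
          have : D * (d a + d a₀) ≤ D * (3 * r) := mul_le_mul_of_nonneg_left (by linarith) hD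
          linarith
    _ = 3 * D * r := by rw [← Finset.sum_mul, sum_p hde, one_mul]

lemma ext_ext {d' : ι → ℝ} {r' : ℝ} {b₀ : ι} {D w : ℝ} {k : ℕ} (hK : K.card ≤ k) (hD : 0 ≤ D)
    (hw : 0 < w) (h0 : a₀ ∈ K) (hr : d a₀ = r) (hmin : ∀ a ∈ K, r ≤ d a) (hr0 : 0 < r)
    (h0' : b₀ ∈ K) (hr' : d' b₀ = r') (hmin' : ∀ a ∈ K, r' ≤ d' a) (hr0' : 0 < r')
    (hdd : ∀ a ∈ K, |d a - d' a| ≤ w)
    (hf : ∀ a ∈ K, ∀ b ∈ K, n1 (f a) (f b) ≤ D * (d a + d b))
    (hf' : ∀ a ∈ K, ∀ b ∈ K, n1 (f a) (f b) ≤ D * (d' a + d' b)) :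
    n1 (ext K f d r) (ext K f d' r') ≤ 36 * k * D * w := by
  have hde : 0 < de K d r := lt_of_lt_of_le hr0 (le_de h0 hr)
  have hde' : 0 < de K d' r' := lt_of_lt_of_le hr0' (le_de h0' hr')
  have hk1 : (1 : ℝ) ≤ k := by
    have : 1 ≤ K.card := Finset.card_pos.2 ⟨a₀, h0⟩
    exact_mod_cast this.trans hK
  have hrr : |r - r'| ≤ w := by
    rw [abs_le]
    have h1 := hmin b₀ h0'
    have h2 := hmin' a₀ h0
    have h3 := abs_le.1 (hdd a₀ h0)
    have h4 := abs_le.1 (hdd b₀ h0')
    constructor <;> linarith [h3.1, h3.2, h4.1, h4.2]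
  have hrr' := abs_le.1 hrr
  by_cases hcase : r < w
  · have h1 := ext_near (f := f) hD h0 hr hr0 (fun a ha => hf a ha a₀ h0)
    have h2 := ext_near (f := f) hD h0' hr' hr0' (fun a ha => hf' a ha b₀ h0')
    have h3 := hf a₀ h0 b₀ h0'
    have h4 := abs_le.1 (hdd b₀ h0')
    have h5 : n1 (ext K f d r) (ext K f d' r') ≤ n1 (ext K f d r) (f a₀) + n1 (f a₀) (f b₀) +
        n1 (ext K f d' r') (f b₀) := by
      have e1 := n1_tri (ext K f d r) (f a₀) (ext K f d' r')
      have e2 := n1_tri (f a₀) (f b₀) (ext K f d' r')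
      rw [n1_comm (f b₀)] at e2
      linarith
    have h6 : D * r ≤ D * w := mul_le_mul_of_nonneg_left hcase.le hD
    have h7 : D * r' ≤ D * (2 * w) := mul_le_mul_of_nonneg_left (by linarith) hD
    have h8 : D * (d a₀ + d b₀) ≤ D * (4 * w) := mul_le_mul_of_nonneg_left (by linarith [h4.2]) hD
    have h9 : 0 ≤ D * w := mul_nonneg hD hw.le
    have h10 : 36 * (D * w) ≤ 36 * k * D * w := by nlinarith
    linarith
  · rw [not_lt] at hcase
    have h1 := n1_comb K f (fun a => nu d r a / de K d r) (fun a => nu d' r' a / de K d' r') (f a₀)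
      (by rw [sum_p hde, sum_p hde'])
    refine h1.trans ?_
    have hnu : ∀ a ∈ K, |nu d r a - nu d' r' a| ≤ 3 * w := by
      intro a ha
      unfold nu
      refine (abs_max_sub_max_le_max _ _ _ _).trans ?_
      rw [sub_self, abs_zero]
      refine max_le (by positivity) ?_
      have h4 := abs_le.1 (hdd a ha)
      rw [abs_le]
      constructor <;> linarith [h4.1, h4.2, hrr'.1, hrr'.2]
    have hdd2 : |de K d' r' - de K d r| ≤ 3 * k * w := by
      unfold de
      rw [← Finset.sum_sub_distrib]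
      refine (Finset.abs_sum_le_sum_abs _ _).trans ?_
      calc ∑ a ∈ K, |nu d' r' a - nu d r a| ≤ ∑ a ∈ K, 3 * w :=
            Finset.sum_le_sum (fun a ha => by rw [abs_sub_comm]; exact hnu a ha)
        _ = K.card * (3 * w) := by rw [Finset.sum_const, nsmul_eq_mul]
        _ ≤ k * (3 * w) := mul_le_mul_of_nonneg_right (by exact_mod_cast hK) (by positivity)
        _ = 3 * k * w := by ring
    have hpq : ∀ a ∈ K, |nu d r a / de K d r - nu d' r' a / de K d' r'| ≤
        3 * w / de K d r + nu d' r' a / de K d' r' * (3 * k * w / de K d r) := by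
      intro a ha
      have e : nu d r a / de K d r - nu d' r' a / de K d' r' =
          (nu d r a - nu d' r' a) / de K d r +
            nu d' r' a / de K d' r' * ((de K d' r' - de K d r) / de K d r) := by
        field_simp
        ring
      rw [e]
      refine (abs_add_le _ _).trans (add_le_add ?_ ?_)
      · rw [abs_div, abs_of_pos hde]
        exact div_le_div_of_nonneg_right (hnu a ha) hde.le
      · rw [abs_mul, abs_of_nonneg (div_nonneg (nu_nonneg _ _ _) hde'.le), abs_div, abs_of_pos hde]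
        exact mul_le_mul_of_nonneg_left (div_le_div_of_nonneg_right hdd2 hde.le)
          (div_nonneg (nu_nonneg _ _ _) hde'.le)
    have hterm : ∀ a ∈ K, |nu d r a / de K d r - nu d' r' a / de K d' r'| * n1 (f a) (f a₀) ≤
        (3 * w / de K d r + nu d' r' a / de K d' r' * (3 * k * w / de K d r)) * (6 * D * r) := by
      intro a ha
      by_cases hz : nu d r a = 0 ∧ nu d' r' a = 0
      · rw [hz.1, hz.2]
        simp only [zero_div, sub_zero, abs_zero, zero_mul, add_zero]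
        positivity
      · have hda : d a ≤ 5 * r := by
          rw [not_and_or] at hz
          rcases hz with hz | hz
          · have := nu_ne hz; linarith
          · have h2 := nu_ne hz
            have h4 := abs_le.1 (hdd a ha)
            linarith [h4.1, h4.2, hrr'.1, hrr'.2]
        have h5 : n1 (f a) (f a₀) ≤ 6 * D * r := by
          refine (hf a ha a₀ h0).trans ?_
          have : D * (d a + d a₀) ≤ D * (6 * r) := mul_le_mul_of_nonneg_left (by linarith) hD
          linarith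
        exact mul_le_mul (hpq a ha) h5 (n1_nonneg _ _) (by
          have := div_nonneg (nu_nonneg d' r' a) hde'.le
          positivity)
    refine (Finset.sum_le_sum hterm).trans ?_
    rw [← Finset.sum_mul, Finset.sum_add_distrib, ← Finset.sum_mul, sum_p hde', Finset.sum_const,
      nsmul_eq_mul, one_mul]
    have h6 : (K.card : ℝ) * (3 * w / de K d r) ≤ k * (3 * w / de K d r) :=
      mul_le_mul_of_nonneg_right (by exact_mod_cast hK) (by positivity)
    have h7 : ((K.card : ℝ) * (3 * w / de K d r) + 3 * k * w / de K d r) * (6 * D * r) ≤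
        (k * (3 * w / de K d r) + 3 * k * w / de K d r) * (6 * D * r) :=
      mul_le_mul_of_nonneg_right (by linarith) (by positivity)
    refine h7.trans ?_
    have h8 : (k * (3 * w / de K d r) + 3 * k * w / de K d r) * (6 * D * r) =
        36 * k * D * w * (r / de K d r) := by ring
    rw [h8]
    have h9 : r / de K d r ≤ 1 := by
      rw [div_le_one hde]; exact le_de h0 hr
    have h10 : 0 ≤ 36 * k * D * w := by positivity
    nlinarith

end Ext

/-- the constant -/
def sc (k : ℕ) (D₁ D₂ : ℝ) : ℝ :=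
  (33 + 32 * (36 * (k + 1) * D₁)) * (36 * (k + 1) * D₁ + 13 + 6 * D₂)

lemma sc_nonneg (k : ℕ) {D₁ D₂ : ℝ} (h1 : 0 ≤ D₁) (h2 : 0 ≤ D₂) : 0 ≤ sc k D₁ D₂ := by
  unfold sc; positivity

/-- star-like sums -/
theorem star_lemma [Fintype V] {G : SimpleGraph V} {C : Set V} {k : ℕ} {K : V → Finset V}
    (hS : StarData G C k K) {D₁ D₂ : ℝ} (hD₁ : 0 ≤ D₁) (hD₂ : 0 ≤ D₂) (h1 : EmbAll (rs G C) D₁)
    (h2 : EmbAll (rm G C) D₂) : EmbAll G (sc k D₁ D₂) := by
  classical
  intro w hw
  obtain ⟨m, f, hf1, hf2⟩ := h1 (w0 G w hw) (w0_pos hS hw)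
  have hw0 := w0_pos hS hw
  -- the embedding of the center
  have hlow : ∀ a ∈ C, ∀ b ∈ C, G.Reachable a b → gd G w a b ≤ n1 (f a) (f b) := by
    intro a ha b hb hab
    obtain ⟨p, hp⟩ := exists_gd hw hab
    obtain ⟨q, hq⟩ := hf2 a b ((star_walk hS hw hb p).1 ha).1
    exact (w0_walk hS hw q).trans hq
  have hup : ∀ a ∈ C, ∀ b ∈ C, G.Reachable a b → n1 (f a) (f b) ≤ D₁ * gd G w a b := by
    intro a ha b hb hab
    obtain ⟨p, hp⟩ := exists_gd hw hab
    obtain ⟨r1, l1⟩ := (star_walk hS hw hb p).1 ha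
    have h3 : IsL1 (fun x y => n1 (f x) (f y)) := ⟨m, f, fun x y => rfl⟩
    have h4 := h3.le_gd hw0 (L := D₁) hf1 r1
    rw [hp] at l1
    exact h4.trans (mul_le_mul_of_nonneg_left l1 hD₁)
  let R : V → Prop := fun x => ∃ a ∈ K x, G.Reachable x a
  have hRall : ∀ x ∉ C, R x → ∀ a ∈ K x, G.Reachable x a := by
    rintro x hx ⟨a, ha, hr⟩ b hb
    exact reach_all hS hw hx ha hb hr
  have hmin : ∀ x, R x → ∃ a₀ ∈ K x, ∀ a ∈ K x, gd G w x a₀ ≤ gd G w x a := by
    rintro x ⟨a, ha, -⟩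
    exact Finset.exists_min_image (K x) (gd G w x) ⟨a, ha⟩
  choose! a₀ ha₀ ha₀min using hmin
  let r : V → ℝ := fun x => gd G w x (a₀ x)
  let F : V → Fin m → ℝ := fun x => if x ∈ C then f x else
    if R x then ext (K x) f (gd G w x) (r x) else fun _ => 0
  have hFC : ∀ x ∈ C, F x = f x := fun x hx => if_pos hx
  have hr0 : ∀ x ∉ C, R x → 0 < r x := by
    intro x hx hR
    refine gd_pos hw (hRall x hx hR _ (ha₀ x hR)) ?_
    rintro h
    exact hx (by rw [h]; exact hS.sub x hx _ (ha₀ x hR))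
  have hKup : ∀ x ∉ C, R x → ∀ a ∈ K x, ∀ b ∈ K x, n1 (f a) (f b) ≤ D₁ * (gd G w x a + gd G w x b) := by
    intro x hx hR a ha b hb
    have ra := hRall x hx hR a ha
    have rb := hRall x hx hR b hb
    refine (hup a (hS.sub x hx a ha) b (hS.sub x hx b hb) (ra.symm.trans rb)).trans ?_
    refine mul_le_mul_of_nonneg_left ?_ hD₁
    have := gd_tri hw ra.symm rb
    rwa [gd_comm hw a x] at this
  have hlip : ∀ u v, G.Adj u v → n1 (F u) (F v) ≤ 36 * (k + 1) * D₁ * w s(u, v) := by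
    intro u v huv
    have hwuv := hw.adj huv
    have hDw : 0 ≤ D₁ * w s(u, v) := mul_nonneg hD₁ hwuv.le
    have hk0 : (0 : ℝ) ≤ k := Nat.cast_nonneg k
    have hbig : 36 * (D₁ * w s(u, v)) ≤ 36 * (k + 1) * D₁ * w s(u, v) := by nlinarith
    -- one endpoint in the center
    have key : ∀ x y, G.Adj x y → x ∉ C → y ∈ C → n1 (F x) (F y) ≤ 5 * (D₁ * w s(x, y)) := by
      intro x y hxy hx hy
      have hyK := hS.nbr x hx y hy hxy
      have hR : R x := ⟨y, hyK, hxy.reachable⟩
      have hFx : F x = ext (K x) f (gd G w x) (r x) := by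
        simp only [F, if_neg hx, if_pos hR]
      rw [hFx, hFC y hy]
      have e1 := ext_near (f := f) (K := K x) (d := gd G w x) (r := r x) (a₀ := a₀ x) hD₁
        (ha₀ x hR) rfl (hr0 x hx hR) (fun a ha => hKup x hx hR a ha _ (ha₀ x hR))
      have e2 := hKup x hx hR _ (ha₀ x hR) y hyK
      have e3 := gd_adj hw hxy
      have e4 : r x ≤ gd G w x y := ha₀min x hR y hyK
      have e5 := n1_tri (ext (K x) f (gd G w x) (r x)) (f (a₀ x)) (f y)
      have e6 : D₁ * r x ≤ D₁ * w s(x, y) := mul_le_mul_of_nonneg_left (by linarith) hD₁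
      have e7 : D₁ * (gd G w x (a₀ x) + gd G w x y) ≤ D₁ * (2 * w s(x, y)) :=
        mul_le_mul_of_nonneg_left (by change r x + _ ≤ _; linarith) hD₁
      linarith
    by_cases hu : u ∈ C
    · by_cases hv : v ∈ C
      · rw [hFC u hu, hFC v hv]
        have h3 := hup u hu v hv huv.reachable
        have h4 := mul_le_mul_of_nonneg_left (gd_adj hw huv) hD₁
        linarith
      · have := key v u huv.symm hv hu
        rw [n1_comm, Sym2.eq_swap] at this
        linarith
    · by_cases hv : v ∈ C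
      · have := key u v huv hu hv
        linarith
      · have hK : K u = K v := hS.const u hu v hv huv
        by_cases hR : R u
        · have hRv : R v := by
            obtain ⟨a, ha, hr⟩ := hR
            exact ⟨a, by rw [← hK]; exact ha, huv.symm.reachable.trans hr⟩
          have hFu : F u = ext (K u) f (gd G w u) (r u) := by
            simp only [F, if_neg hu, if_pos hR]
          have hFv : F v = ext (K u) f (gd G w v) (r v) := by
            simp only [F, if_neg hv, if_pos hRv, hK]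
          rw [hFu, hFv]
          have h3 := ext_ext (K := K u) (f := f) (d := gd G w u) (r := r u) (a₀ := a₀ u)
            (d' := gd G w v) (r' := r v) (b₀ := a₀ v) (D := D₁) (w := w s(u, v)) (k := k)
            (hS.card u hu) hD₁ hwuv (ha₀ u hR) rfl (ha₀min u hR) (hr0 u hu hR)
            (by rw [hK]; exact ha₀ v hRv) rfl (by rw [hK]; exact ha₀min v hRv) (hr0 v hv hRv)
            (by
              intro a ha
              have := gd_lip hw (hRall u hu hR a ha).symm huv
              rwa [gd_comm hw a u, gd_comm hw a v] at this)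
            (hKup u hu hR) (by rw [hK]; exact hKup v hv hRv)
          nlinarith
        · have hRv : ¬ R v := by
            rintro ⟨a, ha, hr⟩
            exact hR ⟨a, by rw [hK]; exact ha, huv.reachable.trans hr⟩
          have hFu : F u = fun _ => 0 := by simp only [F, if_neg hu, if_neg hR]
          have hFv : F v = fun _ => 0 := by simp only [F, if_neg hv, if_neg hRv]
          rw [hFu, hFv]
          have : n1 (fun _ : Fin m => (0 : ℝ)) (fun _ => 0) = 0 := by simp [n1]
          rw [this]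
          positivity
  have hfin := removal hw C (δ₁ := fun x y => n1 (F x) (F y)) ⟨m, F, fun x y => rfl⟩
    (L := 36 * (k + 1) * D₁) (by positivity) hlip ?_ hD₂ (h2 w (hw.mono (rm_le _ _)))
  · exact hfin
  · intro a ha b hb hab
    simp only [hFC a ha, hFC b hb]
    exact hlow a ha b hb hab

end KSum52
end
end

section
set_option linter.all false

/-!
# Clique-sums along trees of bounded Horton-Strahler number
-/

noncomputable section

namespace KSum52

open Finset

universe u v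

lemma Emb.mono {V : Type u} {G : SimpleGraph V} {w : Sym2 V → ℝ} (hw : Pos G w) {D D' : ℝ}
    (h : Emb G w D) (hD : D ≤ D') : Emb G w D' := by
  obtain ⟨m, f, h1, h2⟩ := h
  exact ⟨m, f, fun u v huv => (h1 u v huv).trans
    (mul_le_mul_of_nonneg_right hD (hw.adj huv).le), h2⟩

lemma EmbAll.monoD {V : Type u} {G : SimpleGraph V} {D D' : ℝ} (h : EmbAll G D) (hD : D ≤ D') :
    EmbAll G D' := fun w hw => (h w hw).mono hw hD

lemma embAll_bot {V : Type u} [Fintype V] {D : ℝ} : EmbAll (⊥ : SimpleGraph V) D := by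
  intro w hw
  refine ⟨0, fun _ _ => 0, fun u v huv => absurd huv (by simp), fun u v huv => ?_⟩
  have h : u = v := by
    obtain ⟨p⟩ := huv
    cases p with
    | nil => rfl
    | cons h _ => exact absurd h (by simp)
  subst h
  exact ⟨SimpleGraph.Walk.nil, by simp⟩

/-- relabelling of the vertices -/
lemma embAll_map {W : Type u} {V : Type v} {G : SimpleGraph W} {D : ℝ} (φ : W ↪ V)
    (h : EmbAll G D) : EmbAll (G.map φ) D := by
  classical
  intro w hw
  obtain ⟨m, f, h1, h2⟩ := h (fun e => w (e.map φ)) (by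
    intro e
    induction e using Sym2.ind with
    | h a b =>
      intro he
      rw [SimpleGraph.mem_edgeSet] at he
      exact hw _ ((SimpleGraph.mem_edgeSet _).2 ((SimpleGraph.map_adj _ _ _ _).2 ⟨a, b, he, rfl, rfl⟩)))
  let g : V → Fin m → ℝ := fun x => if hx : ∃ y, φ y = x then f hx.choose else fun _ => 0
  have hg : ∀ y, g (φ y) = f y := by
    intro y
    have hx : ∃ z, φ z = φ y := ⟨y, rfl⟩
    simp only [g, dif_pos hx]
    rw [φ.injective hx.choose_spec]
  refine ⟨m, g, ?_, ?_⟩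
  · intro u v huv
    obtain ⟨a, b, hab, rfl, rfl⟩ := (SimpleGraph.map_adj _ _ _ _).1 huv
    rw [hg, hg]
    exact h1 a b hab
  · intro u v huv
    have key : u = v ∨ ∃ a b, φ a = u ∧ φ b = v ∧ G.Reachable a b := by
      obtain ⟨p⟩ := huv
      induction p with
      | nil => exact Or.inl rfl
      | cons h p ih =>
        obtain ⟨a, b, hab, rfl, rfl⟩ := (SimpleGraph.map_adj _ _ _ _).1 h
        rcases ih with rfl | ⟨a', b', h3, h4, h5⟩
        · exact Or.inr ⟨a, b, rfl, rfl, hab.reachable⟩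
        · rw [φ.injective h3] at h5
          exact Or.inr ⟨a, b', rfl, h4, hab.reachable.trans h5⟩
    rcases key with rfl | ⟨a, b, rfl, rfl, hab⟩
    · exact ⟨SimpleGraph.Walk.nil, by simp⟩
    · obtain ⟨p, hp⟩ := h2 a b hab
      let φ' : G →g G.map φ := ⟨φ, fun {a b} hab => (SimpleGraph.map_adj _ _ _ _).2 ⟨a, b, hab, rfl, rfl⟩⟩
      refine ⟨p.map φ', ?_⟩
      rw [hg, hg]
      rw [SimpleGraph.Walk.edges_map, List.map_map]
      exact hp

section Sum

variable {a b N k : ℕ} {G₁ : SimpleGraph (Fin a)} {G₂ : SimpleGraph (Fin b)}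
  {φ₁ : Fin a ↪ Fin N} {φ₂ : Fin b ↪ Fin N} (h : IsSum k G₁ G₂ φ₁ φ₂)
include h

lemma IsSum.adj1 {x y : Fin N} (hx : x ∈ Set.range φ₁) (hy : y ∈ Set.range φ₁)
    (hxy : (G₁.map φ₁ ⊔ G₂.map φ₂).Adj x y) : (G₁.map φ₁).Adj x y := by
  rcases hxy with hxy | hxy
  · exact hxy
  · obtain ⟨c, d, hcd, rfl, rfl⟩ := (SimpleGraph.map_adj _ _ _ _).1 hxy
    exact (h.clique _ ⟨hx, c, rfl⟩ _ ⟨hy, d, rfl⟩ hxy.ne).1

lemma IsSum.adj2 {x y : Fin N} (hx : x ∈ Set.range φ₂) (hy : y ∈ Set.range φ₂)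
    (hxy : (G₁.map φ₁ ⊔ G₂.map φ₂).Adj x y) : (G₂.map φ₂).Adj x y := by
  rcases hxy with hxy | hxy
  · obtain ⟨c, d, hcd, rfl, rfl⟩ := (SimpleGraph.map_adj _ _ _ _).1 hxy
    exact (h.clique _ ⟨⟨c, rfl⟩, hx⟩ _ ⟨⟨d, rfl⟩, hy⟩ hxy.ne).2
  · exact hxy

lemma IsSum.adj1' {x y : Fin N} (hx : x ∉ Set.range φ₂)
    (hxy : (G₁.map φ₁ ⊔ G₂.map φ₂).Adj x y) : (G₁.map φ₁).Adj x y := by
  rcases hxy with hxy | hxy
  · exact hxy
  · obtain ⟨c, d, hcd, rfl, rfl⟩ := (SimpleGraph.map_adj _ _ _ _).1 hxy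
    exact absurd ⟨c, rfl⟩ hx

lemma IsSum.adj2' {x y : Fin N} (hx : x ∉ Set.range φ₁)
    (hxy : (G₁.map φ₁ ⊔ G₂.map φ₂).Adj x y) : (G₂.map φ₂).Adj x y := by
  rcases hxy with hxy | hxy
  · obtain ⟨c, d, hcd, rfl, rfl⟩ := (SimpleGraph.map_adj _ _ _ _).1 hxy
    exact absurd ⟨c, rfl⟩ hx
  · exact hxy

end Sum

lemma map_adj_range {a N : ℕ} {G₁ : SimpleGraph (Fin a)} {φ₁ : Fin a ↪ Fin N} {x y : Fin N}
    (h : (G₁.map φ₁).Adj x y) : ∃ c d, G₁.Adj c d ∧ φ₁ c = x ∧ φ₁ d = y :=
  (SimpleGraph.map_adj _ _ _ _).1 h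

/-- the structure of a graph of given Horton-Strahler number -/
def Str (k : ℕ) (D : ℝ) {n : ℕ} (G : SimpleGraph (Fin n)) (E : Set (Fin n)) : Prop :=
  ∃ (lo hi : Fin n → ℕ) (C : Set (Fin n)) (K : Fin n → Finset (Fin n)),
    (∀ x ∈ C, lo x ≤ hi x) ∧
    (∀ x ∈ C, ∀ y ∈ C, G.Adj x y → lo x ≤ hi y ∧ lo y ≤ hi x) ∧
    (∀ i, {x | x ∈ C ∧ lo x ≤ i ∧ i < hi x}.ncard ≤ k) ∧
    (∀ i, EmbAll (rs G {x | x ∈ C ∧ lo x ≤ i ∧ i ≤ hi x}) D) ∧
    StarData G C k K ∧ EmbAll (rm G C) D ∧ (∀ x ∈ E, x ∈ C ∧ lo x = 0)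

/-- the distortion of a graph with such a structure -/
lemma Str.embAll {k : ℕ} {D : ℝ} (hD : 0 ≤ D) {n : ℕ} {G : SimpleGraph (Fin n)} {E : Set (Fin n)}
    (h : Str k D G E) : EmbAll G (sc k (pc k D) D) := by
  classical
  obtain ⟨lo, hi, C, K, h1, h2, h3, h4, h5, h6, h7⟩ := h
  refine star_lemma h5 (pc_nonneg k hD) hD ?_ h6
  refine path_lemma k (rs G C) (fun x => if x ∈ C then lo x else 0)
    (fun x => if x ∈ C then hi x else 0) D hD ?_ ?_ ?_ ?_
  · intro x
    by_cases hx : x ∈ C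
    · simp only [if_pos hx]; exact h1 x hx
    · simp only [if_neg hx]; exact le_rfl
  · rintro x y ⟨hxy, hx, hy⟩
    simp only [if_pos hx, if_pos hy]
    exact h2 x hx y hy hxy
  · intro i
    refine (Set.ncard_le_ncard ?_ (Set.toFinite _)).trans (h3 i)
    intro x hx
    simp only [Set.mem_setOf_eq] at hx ⊢
    by_cases hxC : x ∈ C
    · rw [if_pos hxC, if_pos hxC] at hx
      exact ⟨hxC, hx⟩
    · rw [if_neg hxC, if_neg hxC] at hx
      omega
  · intro i
    refine (h4 i).mono hD ?_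
    rintro x y ⟨⟨hxy, hx, hy⟩, hx2, hy2⟩
    simp only [Set.mem_setOf_eq, if_pos hx, if_pos hy] at hx2 hy2
    exact ⟨hxy, ⟨hx, hx2⟩, ⟨hy, hy2⟩⟩

section Steps

variable {a b N k : ℕ} {G₁ : SimpleGraph (Fin a)} {G₂ : SimpleGraph (Fin b)}
  {φ₁ : Fin a ↪ Fin N} {φ₂ : Fin b ↪ Fin N} (h : IsSum k G₁ G₂ φ₁ φ₂) {D : ℝ} (hD : 0 ≤ D)
include h hD

/-- both pieces are light -/
lemma str_pair (E₁ : Set (Fin a)) (e₁ : EmbAll G₁ D) (e₂ : EmbAll G₂ D) :
    Str k D (G₁.map φ₁ ⊔ G₂.map φ₂) (φ₁ '' E₁) := by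
  classical
  let lo' : Fin N → ℕ := fun x => if x ∈ Set.range φ₁ then 0 else 1
  let hi' : Fin N → ℕ := fun x => if x ∈ Set.range φ₂ then 1 else 0
  have hlo0 : ∀ x ∈ Set.range φ₁, lo' x = 0 := fun x hx => if_pos hx
  have hlo1 : ∀ x ∉ Set.range φ₁, lo' x = 1 := fun x hx => if_neg hx
  have hhi1 : ∀ x ∈ Set.range φ₂, hi' x = 1 := fun x hx => if_pos hx
  have hhi0 : ∀ x ∉ Set.range φ₂, hi' x = 0 := fun x hx => if_neg hx
  have hlole : ∀ x, lo' x ≤ 1 := by
    intro x
    by_cases hx : x ∈ Set.range φ₁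
    · rw [hlo0 x hx]; omega
    · rw [hlo1 x hx]
  have hhile : ∀ x, hi' x ≤ 1 := by
    intro x
    by_cases hx : x ∈ Set.range φ₂
    · rw [hhi1 x hx]
    · rw [hhi0 x hx]; omega
  refine ⟨lo', hi', Set.univ, fun _ => ∅, ?_, ?_, ?_, ?_, ⟨?_, ?_, ?_, ?_, ?_⟩, ?_, ?_⟩
  · intro x _
    rcases h.cover x with hx | hx
    · rw [hlo0 x hx]; exact Nat.zero_le _
    · rw [hhi1 x hx]; exact hlole x
  · intro x _ y _ hxy
    rcases hxy with hxy | hxy
    · obtain ⟨c, d, hcd, rfl, rfl⟩ := map_adj_range hxy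
      rw [hlo0 _ ⟨c, rfl⟩, hlo0 _ ⟨d, rfl⟩]
      exact ⟨Nat.zero_le _, Nat.zero_le _⟩
    · obtain ⟨c, d, hcd, rfl, rfl⟩ := map_adj_range hxy
      rw [hhi1 _ ⟨c, rfl⟩, hhi1 _ ⟨d, rfl⟩]
      exact ⟨hlole _, hlole _⟩
  · intro i
    refine (Set.ncard_le_ncard ?_ (Set.toFinite _)).trans h.card
    rintro x ⟨-, h1, h2⟩
    have hx2 : x ∈ Set.range φ₂ := by
      by_contra hc
      rw [hhi0 x hc] at h2
      omega
    have hx1 : x ∈ Set.range φ₁ := by
      by_contra hc
      rw [hlo1 x hc] at h1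
      rw [hhi1 x hx2] at h2
      omega
    exact ⟨hx1, hx2⟩
  · intro i
    match i with
    | 0 =>
      refine (embAll_map φ₁ e₁).mono hD ?_
      rintro x y ⟨hxy, ⟨-, hx, -⟩, ⟨-, hy, -⟩⟩
      have hx1 : x ∈ Set.range φ₁ := by
        by_contra hc
        rw [hlo1 x hc] at hx; omega
      have hy1 : y ∈ Set.range φ₁ := by
        by_contra hc
        rw [hlo1 y hc] at hy; omega
      exact h.adj1 hx1 hy1 hxy
    | j + 1 =>
      refine (embAll_map φ₂ e₂).mono hD ?_
      rintro x y ⟨hxy, ⟨-, -, hx⟩, ⟨-, -, hy⟩⟩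
      have hx1 : x ∈ Set.range φ₂ := by
        by_contra hc
        rw [hhi0 x hc] at hx; omega
      have hy1 : y ∈ Set.range φ₂ := by
        by_contra hc
        rw [hhi0 y hc] at hy; omega
      exact h.adj2 hx1 hy1 hxy
  · intro x hx; exact absurd (Set.mem_univ x) hx
  · intro x hx; exact absurd (Set.mem_univ x) hx
  · intro x hx; exact absurd (Set.mem_univ x) hx
  · intro x hx; exact absurd (Set.mem_univ x) hx
  · intro x hx; exact absurd (Set.mem_univ x) hx
  · refine (embAll_bot (D := D)).mono hD ?_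
    rintro x y ⟨-, hx, -⟩
    exact absurd (Set.mem_univ x) hx
  · rintro _ ⟨y, -, rfl⟩
    exact ⟨Set.mem_univ _, hlo0 _ ⟨y, rfl⟩⟩

/-- a light piece is glued to a heavy one -/
lemma str_light {E₁ : Set (Fin a)} (s₁ : Str k D G₁ E₁) (e₂ : EmbAll G₂ D)
    (hE₁ : Set.range φ₁ ∩ Set.range φ₂ ⊆ φ₁ '' E₁) :
    Str k D (G₁.map φ₁ ⊔ G₂.map φ₂) (φ₁ '' E₁) := by
  classical
  obtain ⟨lo, hi, C, K, h1, h2, h3, h4, h5, h6, h7⟩ := s₁
  let inv : Fin N → Option (Fin a) := fun x => if hx : ∃ y, φ₁ y = x then some hx.choose else none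
  have hinv : ∀ y, inv (φ₁ y) = some y := by
    intro y
    have hx : ∃ z, φ₁ z = φ₁ y := ⟨y, rfl⟩
    simp only [inv, dif_pos hx]
    rw [φ₁.injective hx.choose_spec]
  let K₀ : Finset (Fin N) := (Set.range φ₁ ∩ Set.range φ₂).toFinset
  let lo' : Fin N → ℕ := fun x => (inv x).elim 0 lo
  let hi' : Fin N → ℕ := fun x => (inv x).elim 0 hi
  let K' : Fin N → Finset (Fin N) := fun x => (inv x).elim K₀ (fun y => (K y).map φ₁)
  have hlo : ∀ y, lo' (φ₁ y) = lo y := by intro y; simp only [lo', hinv]; rfl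
  have hhi : ∀ y, hi' (φ₁ y) = hi y := by intro y; simp only [hi', hinv]; rfl
  have hK1 : ∀ y, K' (φ₁ y) = (K y).map φ₁ := by intro y; simp only [K', hinv]; rfl
  have hK0 : ∀ x ∉ Set.range φ₁, K' x = K₀ := by
    intro x hx
    have : inv x = none := dif_neg (fun ⟨y, hy⟩ => hx ⟨y, hy⟩)
    simp only [K', this]; rfl
  have hC : ∀ y, φ₁ y ∈ φ₁ '' C ↔ y ∈ C := fun y => φ₁.injective.mem_set_image
  have hKC : ∀ x, x ∈ Set.range φ₁ → x ∈ Set.range φ₂ → x ∈ φ₁ '' C := by
    intro x hx1 hx2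
    obtain ⟨y, hy, rfl⟩ := hE₁ ⟨hx1, hx2⟩
    exact (hC y).2 (h7 y hy).1
  refine ⟨lo', hi', φ₁ '' C, K', ?_, ?_, ?_, ?_, ⟨?_, ?_, ?_, ?_, ?_⟩, ?_, ?_⟩
  · rintro _ ⟨y, hy, rfl⟩
    rw [hlo, hhi]
    exact h1 y hy
  · rintro _ ⟨y, hy, rfl⟩ _ ⟨z, hz, rfl⟩ hyz
    rw [hlo, hhi, hlo, hhi]
    have := h.adj1 ⟨y, rfl⟩ ⟨z, rfl⟩ hyz
    rw [SimpleGraph.map_adj_apply] at this
    exact h2 y hy z hz this
  · intro i
    refine le_trans ?_ (h3 i)
    have : {x | x ∈ φ₁ '' C ∧ lo' x ≤ i ∧ i < hi' x} = φ₁ '' {x | x ∈ C ∧ lo x ≤ i ∧ i < hi x} := by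
      ext x
      constructor
      · rintro ⟨⟨y, hy, rfl⟩, hx⟩
        rw [hlo, hhi] at hx
        exact ⟨y, ⟨hy, hx⟩, rfl⟩
      · rintro ⟨y, ⟨hy, hx⟩, rfl⟩
        refine ⟨⟨y, hy, rfl⟩, ?_⟩
        rw [hlo, hhi]
        exact hx
    rw [this, Set.ncard_image_of_injective _ φ₁.injective]
  · intro i
    refine (embAll_map φ₁ (h4 i)).mono hD ?_
    rintro _ _ ⟨hxy, ⟨⟨y, hy, rfl⟩, hy2⟩, ⟨⟨z, hz, rfl⟩, hz2⟩⟩
    rw [hlo, hhi] at hy2 hz2
    have := h.adj1 ⟨y, rfl⟩ ⟨z, rfl⟩ hxy
    rw [SimpleGraph.map_adj_apply] at this ⊢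
    exact ⟨this, ⟨hy, hy2⟩, ⟨hz, hz2⟩⟩
  · intro x hx c hc
    by_cases hx1 : x ∈ Set.range φ₁
    · obtain ⟨y, rfl⟩ := hx1
      rw [hK1, Finset.mem_map] at hc
      obtain ⟨d, hd, rfl⟩ := hc
      exact (hC d).2 (h5.sub y (fun hy => hx ((hC y).2 hy)) d hd)
    · rw [hK0 x hx1, Set.mem_toFinset] at hc
      exact hKC c hc.1 hc.2
  · intro x hx c hc d hd hcd
    by_cases hx1 : x ∈ Set.range φ₁
    · obtain ⟨y, rfl⟩ := hx1
      rw [hK1, Finset.mem_map] at hc hd
      obtain ⟨c, hc, rfl⟩ := hc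
      obtain ⟨d, hd, rfl⟩ := hd
      left
      rw [SimpleGraph.map_adj_apply]
      exact h5.clique y (fun hy => hx ((hC y).2 hy)) c hc d hd (fun e => hcd (by rw [e]))
    · rw [hK0 x hx1, Set.mem_toFinset] at hc hd
      exact Or.inl (h.clique c hc d hd hcd).1
  · intro x hx
    by_cases hx1 : x ∈ Set.range φ₁
    · obtain ⟨y, rfl⟩ := hx1
      rw [hK1, Finset.card_map]
      exact h5.card y (fun hy => hx ((hC y).2 hy))
    · rw [hK0 x hx1]
      have := h.card
      rwa [Set.ncard_eq_toFinset_card'] at this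
  · intro x hx y hy hxy
    by_cases hx1 : x ∈ Set.range φ₁
    · have hx2 : x ∉ Set.range φ₂ := fun hx2 => hx (hKC x hx1 hx2)
      obtain ⟨c, d, hcd, rfl, rfl⟩ := map_adj_range (h.adj1' hx2 hxy)
      rw [hK1, hK1, h5.const c (fun hy => hx ((hC c).2 hy)) d (fun hz => hy ((hC d).2 hz)) hcd]
    · obtain ⟨c, d, hcd, rfl, rfl⟩ := map_adj_range (h.adj2' hx1 hxy)
      have hd1 : φ₂ d ∉ Set.range φ₁ := fun hd1 => hy (hKC _ hd1 ⟨d, rfl⟩)
      rw [hK0 _ hx1, hK0 _ hd1]
  · intro x hx y hy hxy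
    by_cases hx1 : x ∈ Set.range φ₁
    · have hx2 : x ∉ Set.range φ₂ := fun hx2 => hx (hKC x hx1 hx2)
      obtain ⟨c, d, hcd, rfl, rfl⟩ := map_adj_range (h.adj1' hx2 hxy)
      rw [hK1, Finset.mem_map]
      exact ⟨d, h5.nbr c (fun hy => hx ((hC c).2 hy)) d ((hC d).1 hy) hcd, rfl⟩
    · obtain ⟨c, d, hcd, rfl, rfl⟩ := map_adj_range (h.adj2' hx1 hxy)
      obtain ⟨y, -, hy⟩ := hy
      rw [hK0 _ hx1, Set.mem_toFinset]
      exact ⟨⟨y, hy⟩, ⟨d, rfl⟩⟩
  · intro w hw
    refine emb_label hw (fun x => decide (x ∈ Set.range φ₁)) ?_ ?_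
    · rintro x y ⟨hxy, hx, hy⟩
      have key : x ∈ Set.range φ₁ ↔ y ∈ Set.range φ₁ := by
        constructor
        · intro hx1
          have hx2 : x ∉ Set.range φ₂ := fun hx2 => hx (hKC x hx1 hx2)
          obtain ⟨c, d, hcd, rfl, rfl⟩ := map_adj_range (h.adj1' hx2 hxy)
          exact ⟨d, rfl⟩
        · intro hy1
          have hy2 : y ∉ Set.range φ₂ := fun hy2 => hy (hKC y hy1 hy2)
          obtain ⟨c, d, hcd, rfl, rfl⟩ := map_adj_range (h.adj1' hy2 hxy.symm)
          exact ⟨d, rfl⟩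
      simp only [key]
    · intro i
      cases i with
      | true =>
        refine (embAll_map φ₁ h6).mono hD ?_ w (hw.mono (rs_le _ _))
        rintro x y ⟨⟨hxy, hx, hy⟩, hx1, hy1⟩
        simp only [Set.mem_setOf_eq, decide_eq_true_eq] at hx1 hy1
        have := h.adj1 hx1 hy1 hxy
        obtain ⟨c, d, hcd, rfl, rfl⟩ := map_adj_range this
        rw [SimpleGraph.map_adj_apply]
        exact ⟨hcd, fun hc => hx ((hC c).2 hc), fun hd => hy ((hC d).2 hd)⟩
      | false =>
        refine (embAll_map φ₂ e₂).mono hD ?_ w (hw.mono (rs_le _ _))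
        rintro x y ⟨⟨hxy, hx, hy⟩, hx1, hy1⟩
        simp only [Set.mem_setOf_eq, decide_eq_false_iff_not] at hx1 hy1
        exact h.adj2' hx1 hxy
  · rintro _ ⟨y, hy, rfl⟩
    rw [hlo]
    exact ⟨(hC y).2 (h7 y hy).1, (h7 y hy).2⟩

/-- a heavy piece is glued to a light one -/
lemma str_heavy {E₂ : Set (Fin b)} (e₁ : EmbAll G₁ D) (s₂ : Str k D G₂ E₂) (E₁ : Set (Fin a))
    (hE₂ : Set.range φ₁ ∩ Set.range φ₂ ⊆ φ₂ '' E₂) :
    Str k D (G₁.map φ₁ ⊔ G₂.map φ₂) (φ₁ '' E₁) := by
  classical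
  obtain ⟨lo, hi, C, K, h1, h2, h3, h4, h5, h6, h7⟩ := s₂
  let inv : Fin N → Option (Fin b) := fun x => if hx : ∃ y, φ₂ y = x then some hx.choose else none
  have hinv : ∀ y, inv (φ₂ y) = some y := by
    intro y
    have hx : ∃ z, φ₂ z = φ₂ y := ⟨y, rfl⟩
    simp only [inv, dif_pos hx]
    rw [φ₂.injective hx.choose_spec]
  have hnone : ∀ x ∉ Set.range φ₂, inv x = none := fun x hx => dif_neg (fun ⟨y, hy⟩ => hx ⟨y, hy⟩)
  let lo' : Fin N → ℕ := fun x => if x ∈ Set.range φ₁ then 0 else (inv x).elim 0 (fun y => lo y + 1)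
  let hi' : Fin N → ℕ := fun x => (inv x).elim 0 (fun y => hi y + 1)
  let K' : Fin N → Finset (Fin N) := fun x => (inv x).elim ∅ (fun y => (K y).map φ₂)
  have hlo1 : ∀ x ∈ Set.range φ₁, lo' x = 0 := fun x hx => if_pos hx
  have hlo2 : ∀ y, φ₂ y ∉ Set.range φ₁ → lo' (φ₂ y) = lo y + 1 := by
    intro y hy; simp only [lo', if_neg hy, hinv]; rfl
  have hlole : ∀ y, lo' (φ₂ y) ≤ lo y + 1 := by
    intro y
    by_cases hy : φ₂ y ∈ Set.range φ₁
    · rw [hlo1 _ hy]; omega
    · rw [hlo2 y hy]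
  have hhi : ∀ y, hi' (φ₂ y) = hi y + 1 := by intro y; simp only [hi', hinv]; rfl
  have hhi0 : ∀ x ∉ Set.range φ₂, hi' x = 0 := by
    intro x hx; simp only [hi', hnone x hx]; rfl
  have hK1 : ∀ y, K' (φ₂ y) = (K y).map φ₂ := by intro y; simp only [K', hinv]; rfl
  have hC : ∀ y, φ₂ y ∈ φ₂ '' C ↔ y ∈ C := fun y => φ₂.injective.mem_set_image
  have hKC : ∀ y, φ₂ y ∈ Set.range φ₁ → y ∈ C ∧ lo y = 0 := by
    intro y hy
    obtain ⟨z, hz, hzy⟩ := hE₂ ⟨hy, y, rfl⟩
    rw [← φ₂.injective hzy]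
    exact h7 z hz
  have hmem : ∀ y, φ₂ y ∈ Set.range φ₁ ∪ φ₂ '' C → y ∈ C := by
    rintro y (hy | hy)
    · exact (hKC y hy).1
    · exact (hC y).1 hy
  refine ⟨lo', hi', Set.range φ₁ ∪ φ₂ '' C, K', ?_, ?_, ?_, ?_, ⟨?_, ?_, ?_, ?_, ?_⟩, ?_, ?_⟩
  · intro x hx
    by_cases hx1 : x ∈ Set.range φ₁
    · rw [hlo1 x hx1]; exact Nat.zero_le _
    · rcases hx with hx | ⟨y, hy, rfl⟩
      · exact absurd hx hx1
      · rw [hlo2 y hx1, hhi]
        have := h1 y hy
        omega
  · intro x hx y hy hxy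
    rcases hxy with hxy | hxy
    · obtain ⟨c, d, hcd, rfl, rfl⟩ := map_adj_range hxy
      rw [hlo1 _ ⟨c, rfl⟩, hlo1 _ ⟨d, rfl⟩]
      exact ⟨Nat.zero_le _, Nat.zero_le _⟩
    · obtain ⟨c, d, hcd, rfl, rfl⟩ := map_adj_range hxy
      have := h2 c (hmem c hx) d (hmem d hy) hcd
      rw [hhi, hhi]
      have e1 := hlole c
      have e2 := hlole d
      omega
  · intro i
    match i with
    | 0 =>
      refine (Set.ncard_le_ncard ?_ (Set.toFinite _)).trans h.card
      rintro x ⟨hx, hx1, hx2⟩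
      have hx3 : x ∈ Set.range φ₂ := by
        by_contra hc
        rw [hhi0 x hc] at hx2; omega
      obtain ⟨y, rfl⟩ := hx3
      refine ⟨?_, y, rfl⟩
      by_contra hc
      rw [hlo2 y hc] at hx1
      omega
    | j + 1 =>
      refine le_trans ?_ (h3 j)
      rw [← Set.ncard_image_of_injective _ φ₂.injective]
      refine Set.ncard_le_ncard ?_ (Set.toFinite _)
      rintro x ⟨hx, hx1, hx2⟩
      have hx3 : x ∈ Set.range φ₂ := by
        by_contra hc
        rw [hhi0 x hc] at hx2; omega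
      obtain ⟨y, rfl⟩ := hx3
      have hyC := hmem y hx
      rw [hhi] at hx2
      refine ⟨y, ⟨hyC, ?_, by omega⟩, rfl⟩
      by_cases hy1 : φ₂ y ∈ Set.range φ₁
      · rw [(hKC y hy1).2]; exact Nat.zero_le _
      · rw [hlo2 y hy1] at hx1; omega
  · intro i
    match i with
    | 0 =>
      refine (embAll_map φ₁ e₁).mono hD ?_
      rintro x y ⟨hxy, ⟨hx, hx1, -⟩, ⟨hy, hy1, -⟩⟩
      have key : ∀ z, z ∈ Set.range φ₁ ∪ φ₂ '' C → lo' z ≤ 0 → z ∈ Set.range φ₁ := by
        intro z hz hz1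
        by_contra hc
        rcases hz with hz | ⟨y, hy, rfl⟩
        · exact hc hz
        · rw [hlo2 y hc] at hz1; omega
      exact h.adj1 (key x hx hx1) (key y hy hy1) hxy
    | j + 1 =>
      refine (embAll_map φ₂ (h4 j)).mono hD ?_
      rintro x y ⟨hxy, ⟨hx, hx1, hx2⟩, ⟨hy, hy1, hy2⟩⟩
      have key : ∀ z, z ∈ Set.range φ₁ ∪ φ₂ '' C → lo' z ≤ j + 1 → j + 1 ≤ hi' z →
          ∃ y, φ₂ y = z ∧ y ∈ C ∧ lo y ≤ j ∧ j ≤ hi y := by
        intro z hz hz1 hz2
        have hz3 : z ∈ Set.range φ₂ := by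
          by_contra hc
          rw [hhi0 z hc] at hz2; omega
        obtain ⟨y, rfl⟩ := hz3
        have hyC := hmem y hz
        rw [hhi] at hz2
        refine ⟨y, rfl, hyC, ?_, by omega⟩
        by_cases hy1 : φ₂ y ∈ Set.range φ₁
        · rw [(hKC y hy1).2]; exact Nat.zero_le _
        · rw [hlo2 y hy1] at hz1; omega
      obtain ⟨c, rfl, hc, hc2⟩ := key x hx hx1 hx2
      obtain ⟨d, rfl, hd, hd2⟩ := key y hy hy1 hy2
      have := h.adj2 ⟨c, rfl⟩ ⟨d, rfl⟩ hxy
      rw [SimpleGraph.map_adj_apply] at this ⊢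
      exact ⟨this, ⟨hc, hc2⟩, ⟨hd, hd2⟩⟩
  · intro x hx c hc
    rcases h.cover x with hx1 | ⟨y, rfl⟩
    · exact absurd (Or.inl hx1) hx
    · rw [hK1, Finset.mem_map] at hc
      obtain ⟨d, hd, rfl⟩ := hc
      exact Or.inr ((hC d).2 (h5.sub y (fun hy => hx (Or.inr ((hC y).2 hy))) d hd))
  · intro x hx c hc d hd hcd
    rcases h.cover x with hx1 | ⟨y, rfl⟩
    · exact absurd (Or.inl hx1) hx
    · rw [hK1, Finset.mem_map] at hc hd
      obtain ⟨c, hc, rfl⟩ := hc
      obtain ⟨d, hd, rfl⟩ := hd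
      right
      rw [SimpleGraph.map_adj_apply]
      exact h5.clique y (fun hy => hx (Or.inr ((hC y).2 hy))) c hc d hd (fun e => hcd (by rw [e]))
  · intro x hx
    rcases h.cover x with hx1 | ⟨y, rfl⟩
    · exact absurd (Or.inl hx1) hx
    · rw [hK1, Finset.card_map]
      exact h5.card y (fun hy => hx (Or.inr ((hC y).2 hy)))
  · intro x hx y hy hxy
    have hx1 : x ∉ Set.range φ₁ := fun hx1 => hx (Or.inl hx1)
    obtain ⟨c, d, hcd, rfl, rfl⟩ := map_adj_range (h.adj2' hx1 hxy)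
    rw [hK1, hK1, h5.const c (fun hc => hx (Or.inr ((hC c).2 hc))) d
      (fun hd => hy (Or.inr ((hC d).2 hd))) hcd]
  · intro x hx y hy hxy
    have hx1 : x ∉ Set.range φ₁ := fun hx1 => hx (Or.inl hx1)
    obtain ⟨c, d, hcd, rfl, rfl⟩ := map_adj_range (h.adj2' hx1 hxy)
    rw [hK1, Finset.mem_map]
    exact ⟨d, h5.nbr c (fun hc => hx (Or.inr ((hC c).2 hc))) d (hmem d hy) hcd, rfl⟩
  · refine (embAll_map φ₂ h6).mono hD ?_
    rintro x y ⟨hxy, hx, hy⟩
    have hx1 : x ∉ Set.range φ₁ := fun hx1 => hx (Or.inl hx1)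
    obtain ⟨c, d, hcd, rfl, rfl⟩ := map_adj_range (h.adj2' hx1 hxy)
    rw [SimpleGraph.map_adj_apply]
    exact ⟨hcd, fun hc => hx (Or.inr ((hC c).2 hc)), fun hd => hy (Or.inr ((hC d).2 hd))⟩
  · rintro _ ⟨y, hy, rfl⟩
    exact ⟨Or.inl ⟨y, rfl⟩, hlo1 _ ⟨y, rfl⟩⟩

end Steps

/-- the bound -/
def bd (k : ℕ) (D : ℝ) : ℕ → ℝ
  | 0 => D
  | r + 1 => max (bd k D r) (sc k (pc k (bd k D r)) (bd k D r))

lemma bd_nonneg (k : ℕ) {D : ℝ} (hD : 0 ≤ D) (r : ℕ) : 0 ≤ bd k D r := by
  induction r with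
  | zero => exact hD
  | succ r ih => exact ih.trans (le_max_left _ _)

/-- the main theorem for tree sums -/
theorem treeSum_embAll (k : ℕ) (F : Family) {D : ℝ} (hD : 0 ≤ D)
    (hF : ∀ (n : ℕ) (G : SimpleGraph (Fin n)), F n G → EmbAll G D) (r : ℕ) :
    ∀ s ≤ r, ∀ (n : ℕ) (G : SimpleGraph (Fin n)) (E : Set (Fin n)), TreeSum k F s n G E →
      EmbAll G (bd k D r) := by
  induction r with
  | zero =>
    intro s hs n G E h
    have key : ∀ (s n : ℕ) (G : SimpleGraph (Fin n)) (E : Set (Fin n)), TreeSum k F s n G E →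
        s = 0 → F n G := by
      intro s n G E h
      cases h with
      | piece h => exact fun _ => h
      | @glue s t a b N G₁ G₂ E₁ E₂ φ₁ φ₂ h₁ h₂ h hE₁ hE₂ =>
        intro h0
        exfalso
        by_cases e : s = t
        · rw [if_pos e] at h0; omega
        · rw [if_neg e] at h0; omega
    exact hF n G (key s n G E h (Nat.le_zero.1 hs))
  | succ r ih =>
    have hB := bd_nonneg k hD r
    have key : ∀ (s n : ℕ) (G : SimpleGraph (Fin n)) (E : Set (Fin n)), TreeSum k F s n G E →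
        s = r + 1 → Str k (bd k D r) G E := by
      intro s n G E h
      induction h with
      | piece h => intro h0; omega
      | @glue s t a b N G₁ G₂ E₁ E₂ φ₁ φ₂ h₁ h₂ h hE₁ hE₂ ih₁ ih₂ =>
        intro h0
        by_cases e : s = t
        · rw [if_pos e] at h0
          exact str_pair h hB E₁ (ih s (by omega) _ _ _ h₁) (ih t (by omega) _ _ _ h₂)
        · rw [if_neg e] at h0
          by_cases e2 : s = r + 1
          · exact str_light h hB (ih₁ e2) (ih t (by omega) _ _ _ h₂) hE₁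
          · exact str_heavy h hB (ih s (by omega) _ _ _ h₁) (ih₂ (by omega)) E₁ hE₂
    intro s hs n G E h
    by_cases e : s = r + 1
    · exact ((key s n G E h e).embAll hB).monoD (le_max_right _ _)
    · exact (ih s (by omega) n G E h).monoD (le_max_left _ _)

/-- reachability is inherited by a piece, by projecting everything else to the common vertex -/
lemma reach_proj {V : Type u} {G H : SimpleGraph V} (π : V → V)
    (hπ : ∀ x y, G.Adj x y → π x = π y ∨ H.Adj (π x) (π y)) {x y : V} (h : G.Reachable x y) :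
    H.Reachable (π x) (π y) := by
  obtain ⟨p⟩ := h
  induction p with
  | nil => exact SimpleGraph.Reachable.refl _
  | cons hxy p ih =>
    rcases hπ _ _ hxy with e | e
    · rw [e]; exact ih
    · exact e.reachable.trans ih

/-- sums along at most one vertex -/
lemma oneSum_embAll {a b N : ℕ} {G₁ : SimpleGraph (Fin a)} {G₂ : SimpleGraph (Fin b)}
    {φ₁ : Fin a ↪ Fin N} {φ₂ : Fin b ↪ Fin N} (h : IsSum 1 G₁ G₂ φ₁ φ₂) {D : ℝ} (hD : 0 ≤ D)
    (e₁ : EmbAll G₁ D) (e₂ : EmbAll G₂ D) : EmbAll (G₁.map φ₁ ⊔ G₂.map φ₂) D := by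
  classical
  intro w hw
  rcases Set.eq_empty_or_nonempty (Set.range φ₁ ∩ Set.range φ₂) with hemp | ⟨z, hz1, hz2⟩
  · have hno : ∀ x, x ∈ Set.range φ₁ → x ∈ Set.range φ₂ → False := by
      intro x h1 h2
      have : x ∈ Set.range φ₁ ∩ Set.range φ₂ := ⟨h1, h2⟩
      rw [hemp] at this
      exact this
    refine emb_label hw (fun x => decide (x ∈ Set.range φ₁)) ?_ ?_
    · intro x y hxy
      have key : x ∈ Set.range φ₁ ↔ y ∈ Set.range φ₁ := by
        rcases hxy with hxy | hxy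
        · obtain ⟨c, d, hcd, rfl, rfl⟩ := map_adj_range hxy
          exact ⟨fun _ => ⟨d, rfl⟩, fun _ => ⟨c, rfl⟩⟩
        · obtain ⟨c, d, hcd, rfl, rfl⟩ := map_adj_range hxy
          exact ⟨fun h1 => (hno _ h1 ⟨c, rfl⟩).elim, fun h1 => (hno _ h1 ⟨d, rfl⟩).elim⟩
      simp only [key]
    · intro i
      cases i with
      | true =>
        refine (embAll_map φ₁ e₁).mono hD ?_ w (hw.mono (rs_le _ _))
        rintro x y ⟨hxy, hx1, hy1⟩
        simp only [Set.mem_setOf_eq, decide_eq_true_eq] at hx1 hy1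
        exact h.adj1 hx1 hy1 hxy
      | false =>
        refine (embAll_map φ₂ e₂).mono hD ?_ w (hw.mono (rs_le _ _))
        rintro x y ⟨hxy, hx1, hy1⟩
        simp only [Set.mem_setOf_eq, decide_eq_false_iff_not] at hx1 hy1
        exact h.adj2' hx1 hxy
  · have huniq : ∀ x, x ∈ Set.range φ₁ → x ∈ Set.range φ₂ → x = z := by
      intro x h1 h2
      exact (Set.ncard_le_one (Set.toFinite _)).1 h.card x ⟨h1, h2⟩ z ⟨hz1, hz2⟩
    let π₁ : Fin N → Fin N := fun x => if x ∈ Set.range φ₁ then x else z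
    let π₂ : Fin N → Fin N := fun x => if x ∈ Set.range φ₂ then x else z
    have hπ1 : ∀ x ∈ Set.range φ₁, π₁ x = x := fun x hx => if_pos hx
    have hπ2 : ∀ x ∈ Set.range φ₂, π₂ x = x := fun x hx => if_pos hx
    have hπ1' : ∀ x ∈ Set.range φ₂, π₁ x = z := by
      intro x hx
      by_cases hx1 : x ∈ Set.range φ₁
      · rw [hπ1 x hx1]; exact huniq x hx1 hx
      · exact if_neg hx1
    have hπ2' : ∀ x ∈ Set.range φ₁, π₂ x = z := by
      intro x hx
      by_cases hx1 : x ∈ Set.range φ₂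
      · rw [hπ2 x hx1]; exact huniq x hx hx1
      · exact if_neg hx1
    have hw1 : Pos (G₁.map φ₁) w := hw.mono le_sup_left
    have hw2 : Pos (G₂.map φ₂) w := hw.mono le_sup_right
    obtain ⟨δ₁, a1, a2, a3⟩ := (emb_iff hw1).1 (embAll_map φ₁ e₁ w hw1)
    obtain ⟨δ₂, b1, b2, b3⟩ := (emb_iff hw2).1 (embAll_map φ₂ e₂ w hw2)
    refine (emb_iff hw).2 ⟨fun x y => δ₁ (π₁ x) (π₁ y) + δ₂ (π₂ x) (π₂ y),
      (a1.comp π₁).add (b1.comp π₂), ?_, ?_⟩
    · rintro x y (hxy | hxy)
      · obtain ⟨c, d, hcd, rfl, rfl⟩ := map_adj_range hxy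
        simp only [hπ1 _ ⟨c, rfl⟩, hπ1 _ ⟨d, rfl⟩, hπ2' _ ⟨c, rfl⟩, hπ2' _ ⟨d, rfl⟩, b1.self]
        have := a2 _ _ hxy
        linarith
      · obtain ⟨c, d, hcd, rfl, rfl⟩ := map_adj_range hxy
        simp only [hπ2 _ ⟨c, rfl⟩, hπ2 _ ⟨d, rfl⟩, hπ1' _ ⟨c, rfl⟩, hπ1' _ ⟨d, rfl⟩, a1.self]
        have := b2 _ _ hxy
        linarith
    · intro x y hxy
      have r1 : (G₁.map φ₁).Reachable (π₁ x) (π₁ y) := by
        refine reach_proj π₁ ?_ hxy
        rintro u v (huv | huv)
        · obtain ⟨c, d, hcd, rfl, rfl⟩ := map_adj_range huv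
          right
          rw [hπ1 _ ⟨c, rfl⟩, hπ1 _ ⟨d, rfl⟩]
          exact huv
        · obtain ⟨c, d, hcd, rfl, rfl⟩ := map_adj_range huv
          left
          rw [hπ1' _ ⟨c, rfl⟩, hπ1' _ ⟨d, rfl⟩]
      have r2 : (G₂.map φ₂).Reachable (π₂ x) (π₂ y) := by
        refine reach_proj π₂ ?_ hxy
        rintro u v (huv | huv)
        · obtain ⟨c, d, hcd, rfl, rfl⟩ := map_adj_range huv
          left
          rw [hπ2' _ ⟨c, rfl⟩, hπ2' _ ⟨d, rfl⟩]
        · obtain ⟨c, d, hcd, rfl, rfl⟩ := map_adj_range huv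
          right
          rw [hπ2 _ ⟨c, rfl⟩, hπ2 _ ⟨d, rfl⟩]
          exact huv
      have g1 : gd (G₁.map φ₁ ⊔ G₂.map φ₂) w (π₁ x) (π₁ y) ≤ δ₁ (π₁ x) (π₁ y) := by
        obtain ⟨p, hp⟩ := exists_gd hw1 r1
        refine le_trans ?_ (a3 _ _ r1)
        rw [← hp]
        have := gd_le hw (p.mapLe (le_sup_left : G₁.map φ₁ ≤ G₁.map φ₁ ⊔ G₂.map φ₂))
        have e : wl w (p.mapLe (le_sup_left : G₁.map φ₁ ≤ G₁.map φ₁ ⊔ G₂.map φ₂)) = wl w p := by
          simp [wl]
        rwa [e] at this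
      have g2 : gd (G₁.map φ₁ ⊔ G₂.map φ₂) w (π₂ x) (π₂ y) ≤ δ₂ (π₂ x) (π₂ y) := by
        obtain ⟨p, hp⟩ := exists_gd hw2 r2
        refine le_trans ?_ (b3 _ _ r2)
        rw [← hp]
        have := gd_le hw (p.mapLe (le_sup_right : G₂.map φ₂ ≤ G₁.map φ₁ ⊔ G₂.map φ₂))
        have e : wl w (p.mapLe (le_sup_right : G₂.map φ₂ ≤ G₁.map φ₁ ⊔ G₂.map φ₂)) = wl w p := by
          simp [wl]
        rwa [e] at this
      have s1 : (G₁.map φ₁ ⊔ G₂.map φ₂).Reachable (π₁ x) (π₁ y) := r1.mono le_sup_left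
      have s2 : (G₁.map φ₁ ⊔ G₂.map φ₂).Reachable (π₂ x) (π₂ y) := r2.mono le_sup_right
      refine le_trans ?_ (add_le_add g1 g2)
      rcases h.cover x with hx | hx <;> rcases h.cover y with hy | hy
      · rw [hπ1 x hx, hπ1 y hy]
        have := gd_nonneg hw (π₂ x) (π₂ y)
        linarith
      · rw [hπ1 x hx, hπ1' y hy] at s1 ⊢
        rw [hπ2' x hx, hπ2 y hy] at s2 ⊢
        exact gd_tri hw s1 s2
      · rw [hπ1' x hx, hπ1 y hy] at s1 ⊢
        rw [hπ2 x hx, hπ2' y hy] at s2 ⊢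
        have := gd_tri hw s2 s1
        linarith
      · rw [hπ2 x hx, hπ2 y hy]
        have := gd_nonneg hw (π₁ x) (π₁ y)
        linarith

lemma oneSums_embAll {F : Family} {D : ℝ} (hD : 0 ≤ D)
    (hF : ∀ (n : ℕ) (G : SimpleGraph (Fin n)), F n G → EmbAll G D) :
    ∀ (n : ℕ) (G : SimpleGraph (Fin n)), OneSums F n G → EmbAll G D := by
  intro n G h
  induction h with
  | piece h => exact hF _ _ h
  | glue φ₁ φ₂ h₁ h₂ h ih₁ ih₂ => exact oneSum_embAll h hD ih₁ ih₂

/-- the main theorem -/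
theorem main (k : ℕ) (F : Family) (hF : ∃ D, Embeds F D) (r : ℕ) :
    ∃ D', Embeds (Sub (OneSums (TreeSums k F r))) D' := by
  obtain ⟨D, hD⟩ := hF
  have hD0 : 0 ≤ max D 0 := le_max_right _ _
  have h1 : ∀ (n : ℕ) (G : SimpleGraph (Fin n)), F n G → EmbAll G (max D 0) := by
    intro n G hG w hw
    exact Emb.mono hw (hD n G hG w hw) (le_max_left _ _)
  have h2 : ∀ (n : ℕ) (G : SimpleGraph (Fin n)), TreeSums k F r n G →
      EmbAll G (bd k (max D 0) r) := by
    rintro n G ⟨s, hs, E, hE⟩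
    exact treeSum_embAll k F hD0 h1 r s hs n G E hE
  have hB := bd_nonneg k hD0 r
  have h3 := oneSums_embAll hB h2
  refine ⟨bd k (max D 0) r, fun n G hG w hw => ?_⟩
  obtain ⟨G', hG', hle⟩ := hG
  exact (h3 n G' hG').mono hB hle w hw

end KSum52
end
end
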